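import Mathlib
import Pool.Agent.DynBal.Game

/-!
# Few sign vectors have a small `ℓ¹` norm of the Hadamard transform
-/

set_option autoImplicit false
set_option linter.unusedSectionVars false

namespace Pool.Agent.DynNeg

open Finset Pool.Agent.DynBal

theorem sgn_sq (a : Bool) : sgn a * sgn a = 1 := by
  cases a <;> simp [sgn]

/-- Chernoff bound for signs, counting form. -/
theorem chernoff {V : Type} [Fintype V] [DecidableEq V] (w : V → ℝ) (W x θ : ℝ)
    (hW : ∑ b, w b ^ 2 ≤ W) (hθ : 0 ≤ θ) :
    (((univ : Finset (V → Bool)).filter (fun s => x ≤ ∑ b, w b * sgn (s b))).card : ℝ) ≤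
      2 ^ Fintype.card V * Real.exp (θ ^ 2 * W / 2 - θ * x) := by
  classical
  have h1 : ∑ s : V → Bool, Real.exp (θ * ∑ b, w b * sgn (s b)) ≤
      2 ^ Fintype.card V * Real.exp (θ ^ 2 * W / 2) := by
    have h2 : ∀ s : V → Bool, Real.exp (θ * ∑ b, w b * sgn (s b)) =
        ∏ b, Real.exp (θ * (w b * sgn (s b))) := by
      intro s
      rw [Finset.mul_sum, Real.exp_sum]
    simp only [h2]
    have h3 : ∑ s : V → Bool, ∏ b, Real.exp (θ * (w b * sgn (s b))) =
        ∏ b : V, ∑ c : Bool, Real.exp (θ * (w b * sgn c)) := by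
      rw [Finset.prod_univ_sum, Fintype.piFinset_univ]
    rw [h3]
    have h4 : ∀ b : V, ∑ c : Bool, Real.exp (θ * (w b * sgn c)) ≤
        2 * Real.exp (θ ^ 2 * w b ^ 2 / 2) := by
      intro b
      have h5 := Real.cosh_le_exp_half_sq (θ * w b)
      rw [Real.cosh_eq] at h5
      have h6 : ∑ c : Bool, Real.exp (θ * (w b * sgn c)) =
          Real.exp (θ * w b) + Real.exp (-(θ * w b)) := by
        rw [Fintype.sum_bool]
        simp only [sgn, if_true, Bool.false_eq_true, if_false]
        congr 2 <;> ring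
      rw [h6]
      have h7 : (θ * w b) ^ 2 / 2 = θ ^ 2 * w b ^ 2 / 2 := by ring
      rw [h7] at h5
      linarith
    calc ∏ b : V, ∑ c : Bool, Real.exp (θ * (w b * sgn c)) ≤
          ∏ b : V, (2 * Real.exp (θ ^ 2 * w b ^ 2 / 2)) :=
          Finset.prod_le_prod (fun b _ => Finset.sum_nonneg fun c _ => (Real.exp_pos _).le)
            fun b _ => h4 b
      _ = 2 ^ Fintype.card V * Real.exp (∑ b, θ ^ 2 * w b ^ 2 / 2) := by
          rw [Finset.prod_mul_distrib, Finset.prod_const, Finset.card_univ, Real.exp_sum]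
      _ ≤ 2 ^ Fintype.card V * Real.exp (θ ^ 2 * W / 2) := by
          gcongr
          rw [← Finset.sum_div, ← Finset.mul_sum]
          gcongr
  have h2 : (((univ : Finset (V → Bool)).filter (fun s => x ≤ ∑ b, w b * sgn (s b))).card : ℝ) *
      Real.exp (θ * x) ≤ ∑ s : V → Bool, Real.exp (θ * ∑ b, w b * sgn (s b)) := by
    calc _ = ∑ s ∈ (univ : Finset (V → Bool)).filter (fun s => x ≤ ∑ b, w b * sgn (s b)),
          Real.exp (θ * x) := by rw [Finset.sum_const, nsmul_eq_mul]
      _ ≤ ∑ s ∈ (univ : Finset (V → Bool)).filter (fun s => x ≤ ∑ b, w b * sgn (s b)),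
          Real.exp (θ * ∑ b, w b * sgn (s b)) := by
          refine Finset.sum_le_sum fun s hs => ?_
          have := (Finset.mem_filter.1 hs).2
          gcongr
      _ ≤ _ := Finset.sum_le_sum_of_subset_of_nonneg (Finset.subset_univ _)
          fun s _ _ => (Real.exp_pos _).le
  have h3 := h2.trans h1
  rw [Real.exp_sub, ← mul_div_assoc, le_div_iff₀ (Real.exp_pos _)]
  exact h3

section
variable {V : Type} [Fintype V] [DecidableEq V] [Nonempty V]

theorem tail_count (H : V → V → ℝ)
    (hrow : ∀ l l', ∑ b, H l b * H l' b = if l = l' then (Fintype.card V : ℝ) else 0)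
    (m : ℕ) (B : ℝ) (hB : 0 ≤ B) :
    (((univ : Finset (V → Bool)).filter (fun s => m ≤ (univ.filter (fun l =>
      B * √(Fintype.card V) ≤ |∑ b, H l b * sgn (s b)|)).card)).card : ℝ) ≤
      2 ^ Fintype.card V * ((2 * (Fintype.card V : ℝ)) ^ m * Real.exp (-(B ^ 2 * m) / 2)) := by
  classical
  set r : ℝ := (Fintype.card V : ℝ) with hr
  have hr0 : 0 < r := by
    rw [hr]
    exact_mod_cast Fintype.card_pos
  have hsr : 0 < √r := Real.sqrt_pos.2 hr0
  have hsr2 : √r * √r = r := Real.mul_self_sqrt hr0.le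
  let wg : (Fin m → V × Bool) → V → ℝ := fun g b => ∑ j, sgn (g j).2 * H (g j).1 b
  let G : Finset (Fin m → V × Bool) := univ.filter (fun g => Function.Injective (fun j => (g j).1))
  have hsub : (univ : Finset (V → Bool)).filter (fun s => m ≤ (univ.filter (fun l =>
      B * √r ≤ |∑ b, H l b * sgn (s b)|)).card) ⊆
      G.biUnion (fun g => univ.filter (fun s => m * (B * √r) ≤ ∑ b, wg g b * sgn (s b))) := by
    intro s hs
    have h1 := (Finset.mem_filter.1 hs).2
    obtain ⟨U, hU, hUc⟩ := Finset.exists_subset_card_eq h1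
    let u : Fin m ≃ U := (Finset.equivFinOfCardEq hUc).symm
    have hu : ∀ j, B * √r ≤ |∑ b, H (u j).1 b * sgn (s b)| := fun j =>
      (Finset.mem_filter.1 (hU (u j).2)).2
    have hsg : ∀ j, ∃ c : Bool, B * √r ≤ sgn c * ∑ b, H (u j).1 b * sgn (s b) := by
      intro j
      rcases le_total 0 (∑ b, H (u j).1 b * sgn (s b)) with h | h
      · refine ⟨true, ?_⟩
        have := hu j
        rw [abs_of_nonneg h] at this
        simpa [sgn] using this
      · refine ⟨false, ?_⟩
        have := hu j
        rw [abs_of_nonpos h] at this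
        simpa [sgn] using this
    choose c hc using hsg
    rw [Finset.mem_biUnion]
    refine ⟨fun j => ((u j).1, c j), ?_, ?_⟩
    · refine Finset.mem_filter.2 ⟨Finset.mem_univ _, ?_⟩
      intro j j' hjj
      exact u.injective (Subtype.ext hjj)
    · refine Finset.mem_filter.2 ⟨Finset.mem_univ _, ?_⟩
      calc (m : ℝ) * (B * √r) = ∑ _j : Fin m, B * √r := by
            rw [Finset.sum_const, Finset.card_univ, Fintype.card_fin, nsmul_eq_mul]
        _ ≤ ∑ j : Fin m, sgn (c j) * ∑ b, H (u j).1 b * sgn (s b) :=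
            Finset.sum_le_sum fun j _ => hc j
        _ = ∑ b, (∑ j : Fin m, sgn (c j) * H (u j).1 b) * sgn (s b) := by
            simp only [Finset.mul_sum, Finset.sum_mul]
            rw [Finset.sum_comm]
            refine Finset.sum_congr rfl fun b _ => Finset.sum_congr rfl fun j _ => ?_
            ring
  have hW : ∀ g ∈ G, ∑ b, wg g b ^ 2 ≤ m * r := by
    intro g hg
    have hinj : Function.Injective (fun j => (g j).1) := (Finset.mem_filter.1 hg).2
    refine le_of_eq ?_
    calc ∑ b, wg g b ^ 2 = ∑ b, ∑ j, ∑ j', sgn (g j).2 * sgn (g j').2 *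
          (H (g j).1 b * H (g j').1 b) := by
          refine Finset.sum_congr rfl fun b _ => ?_
          rw [sq, Finset.sum_mul_sum]
          refine Finset.sum_congr rfl fun j _ => Finset.sum_congr rfl fun j' _ => ?_
          ring
      _ = ∑ j, ∑ j', sgn (g j).2 * sgn (g j').2 * ∑ b, (H (g j).1 b * H (g j').1 b) := by
          rw [Finset.sum_comm]
          refine Finset.sum_congr rfl fun j _ => ?_
          rw [Finset.sum_comm]
          refine Finset.sum_congr rfl fun j' _ => ?_
          rw [Finset.mul_sum]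
      _ = ∑ j : Fin m, ∑ j', (if j = j' then r else 0) := by
          refine Finset.sum_congr rfl fun j _ => Finset.sum_congr rfl fun j' _ => ?_
          rw [hrow]
          by_cases hjj : j = j'
          · subst hjj
            rw [if_pos rfl, if_pos rfl, sgn_sq, one_mul]
          · rw [if_neg hjj, if_neg (fun h => hjj (hinj h)), mul_zero]
      _ = m * r := by
          simp
  have hcard : (G.card : ℝ) ≤ (2 * r) ^ m := by
    have h1 : G.card ≤ Fintype.card (Fin m → V × Bool) := Finset.card_le_univ _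
    rw [Fintype.card_fun, Fintype.card_prod, Fintype.card_bool, Fintype.card_fin] at h1
    calc (G.card : ℝ) ≤ ((Fintype.card V * 2) ^ m : ℕ) := by exact_mod_cast h1
      _ = (2 * r) ^ m := by
        rw [hr]
        push_cast
        ring
  have h1 : ∀ g ∈ G, (((univ : Finset (V → Bool)).filter
      (fun s => m * (B * √r) ≤ ∑ b, wg g b * sgn (s b))).card : ℝ) ≤
      2 ^ Fintype.card V * Real.exp (-(B ^ 2 * m) / 2) := by
    intro g hg
    have h2 := chernoff (wg g) (m * r) (m * (B * √r)) (B / √r) (hW g hg) (by positivity)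
    have h3 : (B / √r) ^ 2 * (m * r) / 2 - B / √r * (m * (B * √r)) = -(B ^ 2 * m) / 2 := by
      have h4 : (B / √r) ^ 2 * r = B ^ 2 := by
        rw [div_pow, Real.sq_sqrt hr0.le]
        field_simp
      have h5 : B / √r * (B * √r) = B ^ 2 := by
        field_simp
      calc (B / √r) ^ 2 * (m * r) / 2 - B / √r * (m * (B * √r)) =
          ((B / √r) ^ 2 * r) * m / 2 - (B / √r * (B * √r)) * m := by ring
        _ = _ := by
          rw [h4, h5]
          ring
    rw [h3] at h2
    exact h2
  have h2 : (((univ : Finset (V → Bool)).filter (fun s => m ≤ (univ.filter (fun l =>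
      B * √r ≤ |∑ b, H l b * sgn (s b)|)).card)).card : ℝ) ≤
      ∑ g ∈ G, (((univ : Finset (V → Bool)).filter
        (fun s => m * (B * √r) ≤ ∑ b, wg g b * sgn (s b))).card : ℝ) := by
    have h3 := (Finset.card_le_card hsub).trans Finset.card_biUnion_le
    exact_mod_cast h3
  refine h2.trans ?_
  calc _ ≤ ∑ _g ∈ G, 2 ^ Fintype.card V * Real.exp (-(B ^ 2 * m) / 2) := Finset.sum_le_sum h1
    _ = (G.card : ℝ) * (2 ^ Fintype.card V * Real.exp (-(B ^ 2 * m) / 2)) := by
        rw [Finset.sum_const, nsmul_eq_mul]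
    _ ≤ (2 * r) ^ m * (2 ^ Fintype.card V * Real.exp (-(B ^ 2 * m) / 2)) := by
        gcongr
    _ = _ := by ring

theorem parseval (H : V → V → ℝ)
    (hcol : ∀ b b', ∑ l, H l b * H l b' = if b = b' then (Fintype.card V : ℝ) else 0)
    (s : V → Bool) :
    ∑ l, (∑ b, H l b * sgn (s b)) ^ 2 = (Fintype.card V : ℝ) ^ 2 := by
  calc ∑ l, (∑ b, H l b * sgn (s b)) ^ 2 =
      ∑ l, ∑ b, ∑ b', sgn (s b) * sgn (s b') * (H l b * H l b') := by
        refine Finset.sum_congr rfl fun l _ => ?_
        rw [sq, Finset.sum_mul_sum]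
        refine Finset.sum_congr rfl fun j _ => Finset.sum_congr rfl fun j' _ => ?_
        ring
    _ = ∑ b, ∑ b', sgn (s b) * sgn (s b') * ∑ l, (H l b * H l b') := by
        rw [Finset.sum_comm]
        refine Finset.sum_congr rfl fun j _ => ?_
        rw [Finset.sum_comm]
        refine Finset.sum_congr rfl fun j' _ => ?_
        rw [Finset.mul_sum]
    _ = ∑ b : V, ∑ b' : V, (if b = b' then (Fintype.card V : ℝ) else 0) := by
        refine Finset.sum_congr rfl fun b _ => Finset.sum_congr rfl fun b' _ => ?_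
        rw [hcol]
        by_cases hjj : b = b'
        · subst hjj
          rw [if_pos rfl, sgn_sq, one_mul]
        · rw [if_neg hjj, mul_zero]
    _ = _ := by
        simp [sq]

/-- W: few sign vectors have a small `ℓ¹` norm of the Hadamard transform. -/
theorem walsh_count (H : V → V → ℝ)
    (hrow : ∀ l l', ∑ b, H l b * H l' b = if l = l' then (Fintype.card V : ℝ) else 0)
    (hcol : ∀ b b', ∑ l, H l b * H l b' = if b = b' then (Fintype.card V : ℝ) else 0)
    (m : ℕ) (β B : ℝ) (hβ : 0 < β) (hB : 0 < B)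
    (hm : (m : ℝ) * β ^ 2 ≤ (Fintype.card V : ℝ) / 2) :
    (((Finset.univ : Finset (V → Bool)).filter (fun s =>
      ∑ l, |∑ b, H l b * sgn (s b)| <
        (Fintype.card V : ℝ) * √(Fintype.card V) / (2 * B))).card : ℝ) ≤
      2 ^ (Fintype.card V) * (2 * (Fintype.card V : ℝ) * Real.exp (-β ^ 2 / 2) +
        (2 * (Fintype.card V : ℝ)) ^ m * Real.exp (-(B ^ 2 * m) / 2)) := by
  classical
  have t1 := tail_count H hrow 1 β hβ.le
  have t2 := tail_count H hrow m B hB.le
  set r : ℝ := (Fintype.card V : ℝ) with hr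
  have hr0 : 0 < r := by
    rw [hr]
    exact_mod_cast Fintype.card_pos
  have hsr : 0 < √r := Real.sqrt_pos.2 hr0
  have hsr2 : √r * √r = r := Real.mul_self_sqrt hr0.le
  have hsub : (Finset.univ : Finset (V → Bool)).filter (fun s =>
      ∑ l, |∑ b, H l b * sgn (s b)| < r * √r / (2 * B)) ⊆
      ((univ : Finset (V → Bool)).filter (fun s => 1 ≤ (univ.filter (fun l =>
        β * √r ≤ |∑ b, H l b * sgn (s b)|)).card)) ∪
      ((univ : Finset (V → Bool)).filter (fun s => m ≤ (univ.filter (fun l =>
        B * √r ≤ |∑ b, H l b * sgn (s b)|)).card)) := by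
    intro s hs
    by_contra hcon
    rw [Finset.mem_union, not_or] at hcon
    simp only [Finset.mem_filter, Finset.mem_univ, true_and, not_le] at hcon hs
    obtain ⟨h1, h2⟩ := hcon
    set hat : V → ℝ := fun l => ∑ b, H l b * sgn (s b) with hhat
    have h3 : ∀ l, |hat l| < β * √r := by
      intro l
      have h4 : (univ.filter (fun l => β * √r ≤ |hat l|)).card = 0 := by
        simpa using h1
      rw [Finset.card_eq_zero, Finset.filter_eq_empty_iff] at h4
      exact not_le.1 (h4 (Finset.mem_univ l))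
    have hP : ∑ l, (hat l) ^ 2 = r ^ 2 := parseval H hcol s
    set T := univ.filter (fun l => B * √r ≤ |hat l|) with hT
    have h4 : ∑ l ∈ T, (hat l) ^ 2 ≤ m * (β ^ 2 * r) := by
      calc ∑ l ∈ T, (hat l) ^ 2 ≤ ∑ _l ∈ T, β ^ 2 * r := by
            refine Finset.sum_le_sum fun l _ => ?_
            have h5 := h3 l
            have h6 : (hat l) ^ 2 = |hat l| ^ 2 := (sq_abs _).symm
            rw [h6]
            calc |hat l| ^ 2 ≤ (β * √r) ^ 2 := by
                  gcongr
              _ = β ^ 2 * r := by rw [mul_pow, Real.sq_sqrt hr0.le]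
        _ = T.card * (β ^ 2 * r) := by rw [Finset.sum_const, nsmul_eq_mul]
        _ ≤ m * (β ^ 2 * r) := by
            gcongr
    have h5 : ∑ l ∈ univ.filter (fun l => ¬ B * √r ≤ |hat l|), (hat l) ^ 2 ≤
        B * √r * ∑ l, |hat l| := by
      calc _ ≤ ∑ l ∈ univ.filter (fun l => ¬ B * √r ≤ |hat l|), B * √r * |hat l| := by
            refine Finset.sum_le_sum fun l hl => ?_
            have h6 := not_le.1 (Finset.mem_filter.1 hl).2
            have h7 : (hat l) ^ 2 = |hat l| ^ 2 := (sq_abs _).symm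
            rw [h7, sq]
            exact mul_le_mul_of_nonneg_right h6.le (abs_nonneg _)
        _ ≤ ∑ l, B * √r * |hat l| := by
            refine Finset.sum_le_sum_of_subset_of_nonneg (Finset.subset_univ _) ?_
            intro l _ _
            positivity
        _ = _ := by rw [Finset.mul_sum]
    have h6 : ∑ l ∈ T, (hat l) ^ 2 + ∑ l ∈ univ.filter (fun l => ¬ B * √r ≤ |hat l|),
        (hat l) ^ 2 = r ^ 2 := by
      rw [hT, Finset.sum_filter_add_sum_filter_not, hP]
    have h7 : (m : ℝ) * (β ^ 2 * r) ≤ r ^ 2 / 2 := by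
      have : (m : ℝ) * β ^ 2 * r ≤ r / 2 * r := mul_le_mul_of_nonneg_right hm hr0.le
      nlinarith
    have h8 : r ^ 2 / 2 ≤ B * √r * ∑ l, |hat l| := by linarith
    have h9 : B * √r * ∑ l, |hat l| < B * √r * (r * √r / (2 * B)) :=
      mul_lt_mul_of_pos_left hs (by positivity)
    have h10 : B * √r * (r * √r / (2 * B)) = r ^ 2 / 2 := by
      have h11 : B * √r * (r * √r / (2 * B)) = (√r * √r) * r / 2 := by
        field_simp
      rw [h11, hsr2, sq]
    linarith
  have h1 : (((Finset.univ : Finset (V → Bool)).filter (fun s =>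
      ∑ l, |∑ b, H l b * sgn (s b)| < r * √r / (2 * B))).card : ℝ) ≤
      (((univ : Finset (V → Bool)).filter (fun s => 1 ≤ (univ.filter (fun l =>
        β * √r ≤ |∑ b, H l b * sgn (s b)|)).card)).card : ℝ) +
      (((univ : Finset (V → Bool)).filter (fun s => m ≤ (univ.filter (fun l =>
        B * √r ≤ |∑ b, H l b * sgn (s b)|)).card)).card : ℝ) := by
    exact_mod_cast (Finset.card_le_card hsub).trans (Finset.card_union_le _ _)
  refine h1.trans ?_
  rw [pow_one] at t1
  have h2 : -(β ^ 2 * ((1 : ℕ) : ℝ)) / 2 = -β ^ 2 / 2 := by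
    push_cast
    ring
  rw [h2] at t1
  calc _ ≤ 2 ^ Fintype.card V * (2 * r * Real.exp (-β ^ 2 / 2)) +
        2 ^ Fintype.card V * ((2 * r) ^ m * Real.exp (-(B ^ 2 * m) / 2)) := add_le_add t1 t2
    _ = _ := by ring

end

end Pool.Agent.DynNeg
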