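import Mathlib
import Pool.Agent.DynNeg.W

/-!
# Few sign vectors have a small `ℓ¹` norm of the Hadamard transform: numerical form
-/

set_option autoImplicit false

namespace Pool.Agent.DynNeg

open Finset Pool.Agent.DynBal

/-- The logarithmic factor of the construction. -/
noncomputable def Bl (ℓ : ℕ) : ℝ := √(4 * Real.log (2 * 64 ^ ℓ))

theorem log_pos_aux (ℓ : ℕ) : 0 < Real.log (2 * 64 ^ ℓ) := by
  apply Real.log_pos
  have : (1 : ℝ) ≤ 64 ^ ℓ := one_le_pow₀ (by norm_num)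
  linarith

theorem Bl_pos (ℓ : ℕ) : 0 < Bl ℓ := by
  unfold Bl
  have := log_pos_aux ℓ
  positivity

theorem Bl_sq (ℓ : ℕ) : Bl ℓ ^ 2 = 4 * Real.log (2 * 64 ^ ℓ) := by
  unfold Bl
  have := log_pos_aux ℓ
  rw [Real.sq_sqrt (by positivity)]

theorem two_pow_le_exp (n : ℕ) : (2 : ℝ) ^ n ≤ Real.exp n := by
  have h : (2 : ℝ) ≤ Real.exp 1 := by
    have := Real.add_one_le_exp (1 : ℝ)
    linarith
  calc (2 : ℝ) ^ n ≤ Real.exp 1 ^ n := by gcongr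
    _ = Real.exp n := by rw [← Real.exp_nat_mul, mul_one]

theorem lin_le_four_pow (ℓ : ℕ) (hℓ : 3 ≤ ℓ) : 6 * ℓ + 1 ≤ 4 ^ ℓ ∧ 64 ≤ 4 ^ ℓ := by
  induction ℓ, hℓ using Nat.le_induction with
  | base => norm_num
  | succ n hn ih =>
    rw [pow_succ]
    omega

theorem walsh_num {V : Type} [Fintype V] [DecidableEq V] [Nonempty V] (H : V → V → ℝ)
    (hrow : ∀ l l', ∑ b, H l b * H l' b = if l = l' then (Fintype.card V : ℝ) else 0)
    (hcol : ∀ b b', ∑ l, H l b * H l b' = if b = b' then (Fintype.card V : ℝ) else 0)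
    (ℓ : ℕ) (hℓ : 3 ≤ ℓ) (hV : Fintype.card V = 64 ^ ℓ) :
    ((Finset.univ : Finset (V → Bool)).filter (fun s =>
      ∑ l, |∑ b, H l b * sgn (s b)| < 512 ^ ℓ / (2 * Bl ℓ))).card * 2 ^ (2 * 4 ^ ℓ + 3) ≤
      2 ^ (Fintype.card V) := by
  obtain ⟨h6, h64⟩ := lin_le_four_pow ℓ hℓ
  have hVr : (Fintype.card V : ℝ) = 64 ^ ℓ := by
    rw [hV]
    push_cast
    rfl
  have hsq : √(64 ^ ℓ : ℝ) = 8 ^ ℓ := by
    rw [show (64 ^ ℓ : ℝ) = (8 ^ ℓ) ^ 2 by rw [← pow_mul, mul_comm, pow_mul]; norm_num]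
    exact Real.sqrt_sq (by positivity)
  have hD : (64 ^ ℓ : ℝ) * √(64 ^ ℓ) = 512 ^ ℓ := by
    rw [hsq, ← mul_pow]
    norm_num
  set M := 4 ^ ℓ with hM
  have hMr : (M : ℝ) = 4 ^ ℓ := by
    rw [hM]
    push_cast
    rfl
  have hβ2 : (4 * 2 ^ ℓ : ℝ) ^ 2 = 16 * M := by
    rw [mul_pow, ← pow_mul, mul_comm ℓ 2, pow_mul, hMr]
    norm_num
  have h1 := walsh_count H hrow hcol (2 * M) (4 * 2 ^ ℓ) (Bl ℓ) (by positivity) (Bl_pos ℓ) (by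
    rw [hβ2, hVr]
    have h2 : (64 : ℝ) ≤ M := by exact_mod_cast h64
    have h3 : (64 : ℝ) ^ ℓ = M * M * M := by
      rw [hMr, ← mul_pow, ← mul_pow]
      norm_num
    rw [h3]
    push_cast
    have h4 : (0 : ℝ) ≤ M := by positivity
    nlinarith [mul_nonneg h4 h4])
  rw [hVr, hD, hβ2, Bl_sq] at h1
  have h2r : (2 * 64 ^ ℓ : ℝ) = 2 ^ (6 * ℓ + 1) := by
    rw [pow_succ, pow_mul]
    norm_num
    ring
  -- first term
  have h2 : 2 * (64 : ℝ) ^ ℓ * Real.exp (-(16 * (M : ℝ)) / 2) * 2 ^ (2 * M + 4) ≤ 1 := by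
    have h3 : Real.exp (-(16 * (M : ℝ)) / 2) ≤ 1 / 2 ^ (8 * M) := by
      rw [show -(16 * (M : ℝ)) / 2 = -((8 * M : ℕ) : ℝ) by push_cast; ring, Real.exp_neg,
        ← one_div]
      exact one_div_le_one_div_of_le (by positivity) (two_pow_le_exp _)
    calc 2 * (64 : ℝ) ^ ℓ * Real.exp (-(16 * (M : ℝ)) / 2) * 2 ^ (2 * M + 4)
        ≤ 2 ^ M * (1 / 2 ^ (8 * M)) * 2 ^ (2 * M + 4) := by
          rw [h2r]
          gcongr
          norm_num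
      _ = 2 ^ (3 * M + 4) / 2 ^ (8 * M) := by
          rw [show 3 * M + 4 = M + (2 * M + 4) by ring, pow_add]
          ring
      _ ≤ 1 := by
          rw [div_le_one (by positivity)]
          exact pow_le_pow_right₀ (by norm_num) (by omega)
  -- second term
  have h3 : (2 * (64 : ℝ) ^ ℓ) ^ (2 * M) *
      Real.exp (-(4 * Real.log (2 * 64 ^ ℓ) * ((2 * M : ℕ) : ℝ)) / 2) * 2 ^ (2 * M + 4) ≤ 1 := by
    have h4 : Real.exp (-(4 * Real.log (2 * 64 ^ ℓ) * ((2 * M : ℕ) : ℝ)) / 2) =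
        1 / (2 * 64 ^ ℓ) ^ (2 * (2 * M)) := by
      rw [show -(4 * Real.log (2 * 64 ^ ℓ) * ((2 * M : ℕ) : ℝ)) / 2 =
        -(((2 * (2 * M) : ℕ) : ℝ) * Real.log (2 * 64 ^ ℓ)) by push_cast; ring, Real.exp_neg,
        Real.exp_nat_mul, Real.exp_log (by positivity), ← one_div]
    rw [h4]
    have h5 : (2 * (64 : ℝ) ^ ℓ) ^ (2 * (2 * M)) =
        (2 * 64 ^ ℓ) ^ (2 * M) * (2 * 64 ^ ℓ) ^ (2 * M) := by
      rw [← pow_add]
      congr 1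
      ring
    have h6 : (2 : ℝ) ^ (2 * M + 4) ≤ (2 * 64 ^ ℓ) ^ (2 * M) := by
      rw [h2r, ← pow_mul]
      refine pow_le_pow_right₀ (by norm_num) ?_
      nlinarith
    have h7 : (0 : ℝ) < (2 * 64 ^ ℓ) ^ (2 * M) := by positivity
    rw [h5]
    calc (2 * (64 : ℝ) ^ ℓ) ^ (2 * M) * (1 / ((2 * 64 ^ ℓ) ^ (2 * M) * (2 * 64 ^ ℓ) ^ (2 * M))) *
          2 ^ (2 * M + 4) = 2 ^ (2 * M + 4) / (2 * 64 ^ ℓ) ^ (2 * M) := by
          field_simp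
      _ ≤ 1 := by
          rw [div_le_one h7]
          exact h6
  have h4 : (2 : ℝ) ^ (2 * M + 4) = 2 * 2 ^ (2 * M + 3) := by
    rw [pow_succ]
    ring
  rw [h4] at h2 h3
  have h5 : (((Finset.univ : Finset (V → Bool)).filter (fun s =>
      ∑ l, |∑ b, H l b * sgn (s b)| < 512 ^ ℓ / (2 * Bl ℓ))).card : ℝ) * 2 ^ (2 * M + 3) ≤
      2 ^ (Fintype.card V) := by
    calc _ ≤ (2 ^ (Fintype.card V) * (2 * (64 : ℝ) ^ ℓ * Real.exp (-(16 * (M : ℝ)) / 2) +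
        (2 * (64 : ℝ) ^ ℓ) ^ (2 * M) *
          Real.exp (-(4 * Real.log (2 * 64 ^ ℓ) * ((2 * M : ℕ) : ℝ)) / 2))) *
          2 ^ (2 * M + 3) := by
          gcongr
      _ = 2 ^ (Fintype.card V) * ((2 * (64 : ℝ) ^ ℓ * Real.exp (-(16 * (M : ℝ)) / 2) *
          2 ^ (2 * M + 3)) + ((2 * (64 : ℝ) ^ ℓ) ^ (2 * M) *
          Real.exp (-(4 * Real.log (2 * 64 ^ ℓ) * ((2 * M : ℕ) : ℝ)) / 2) *
          2 ^ (2 * M + 3))) := by ring
      _ ≤ 2 ^ (Fintype.card V) * 1 := by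
          gcongr
          linarith
      _ = _ := mul_one _
  exact_mod_cast h5

end Pool.Agent.DynNeg
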