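import Mathlib
import Pool.Agent.DynNeg.WNum

/-!
# The bound beats every power of the logarithm
-/

set_option autoImplicit false

namespace Pool.Agent.DynNeg

theorem Bl_le (ℓ : ℕ) (hℓ : 1 ≤ ℓ) : Bl ℓ ≤ 28 * ℓ := by
  have h1 : Real.log (2 * 64 ^ ℓ) ≤ 7 * ℓ := by
    have h2 : (2 * 64 ^ ℓ : ℝ) = 2 ^ (6 * ℓ + 1) := by
      rw [pow_succ, pow_mul]
      norm_num
      ring
    rw [h2, Real.log_pow]
    have h3 : Real.log 2 ≤ 1 := by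
      have := Real.log_two_lt_d9
      linarith
    have h4 : (0 : ℝ) < Real.log 2 := Real.log_pos (by norm_num)
    have h5 : (1 : ℝ) ≤ ℓ := by exact_mod_cast hℓ
    push_cast
    nlinarith
  have h5 : (1 : ℝ) ≤ ℓ := by exact_mod_cast hℓ
  refine le_of_sq_le_sq ?_ (by positivity)
  rw [Bl_sq]
  nlinarith

theorem asymp (C : ℝ) (hC : 0 < C) :
    ∃ ℓ : ℕ, 3 ≤ ℓ ∧ C * (100 * (ℓ : ℝ) ^ 2) ^ C < 2 ^ ℓ / (64 * Bl ℓ) := by
  have h2 : 0 < Real.log 2 := Real.log_pos (by norm_num)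
  have ht := (tendsto_rpow_mul_exp_neg_mul_atTop_nhds_zero (2 * C + 1) (Real.log 2) h2).comp
    tendsto_natCast_atTop_atTop
  have hK : 0 < 1 / (C * 100 ^ C * 1792) := by positivity
  have he := ht.eventually (gt_mem_nhds hK)
  obtain ⟨ℓ, hℓ1, hℓ3⟩ := (he.and (Filter.eventually_ge_atTop 3)).exists
  refine ⟨ℓ, hℓ3, ?_⟩
  have hℓ0 : (0 : ℝ) < ℓ := by
    have : 0 < ℓ := by omega
    exact_mod_cast this
  simp only [Function.comp_apply] at hℓ1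
  have h3 : Real.exp (-Real.log 2 * (ℓ : ℝ)) = 1 / 2 ^ ℓ := by
    rw [neg_mul, Real.exp_neg, mul_comm, Real.exp_nat_mul, Real.exp_log (by norm_num), one_div]
  rw [h3] at hℓ1
  have h4 : (ℓ : ℝ) ^ (2 * C + 1) = ((ℓ : ℝ) ^ 2) ^ C * ℓ := by
    rw [Real.rpow_add hℓ0, Real.rpow_one, Real.rpow_mul hℓ0.le, Real.rpow_two]
  rw [h4, mul_one_div, div_lt_div_iff₀ (by positivity) (by positivity)] at hℓ1
  have hB := Bl_le ℓ (by omega)
  have hB0 := Bl_pos ℓ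
  rw [lt_div_iff₀ (by positivity), Real.mul_rpow (by norm_num) (by positivity)]
  calc C * (100 ^ C * ((ℓ : ℝ) ^ 2) ^ C) * (64 * Bl ℓ) ≤
        C * (100 ^ C * ((ℓ : ℝ) ^ 2) ^ C) * (64 * (28 * ℓ)) := by gcongr
    _ = ((ℓ : ℝ) ^ 2) ^ C * ℓ * (C * 100 ^ C * 1792) := by ring
    _ < 1 * 2 ^ ℓ := hℓ1
    _ = 2 ^ ℓ := one_mul _

end Pool.Agent.DynNeg
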