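import Mathlib
import Pool.Agent.DynBal.Game

/-!
# Definitions for the lower bound for fully dynamic vector balancing
-/

set_option autoImplicit false

namespace Pool.Agent.DynNeg

open Pool.Agent.DynBal

/-- Every inserted vector has Euclidean norm at most `1` and is different from every vector
inserted before, and every deletion concerns a vector that is active at that moment. -/
def LegalL2 {n : ℕ} : List (Update n) → Prop
  | [] => True
  | Update.insert a :: h => (∑ i, (a i) ^ 2 ≤ 1) ∧ (∀ b, Update.insert b ∈ h → b ≠ a) ∧ LegalL2 h
  | Update.delete s :: h => s ∈ active h ∧ LegalL2 h

end Pool.Agent.DynNeg
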