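import Pool.Agent.DynNeg.Defs

/-!
# The adaptive adversary for fully dynamic vector balancing (MP_d59f0b_lc)
-/

set_option autoImplicit false

namespace Pool.Agent.DynNeg

open Pool.Agent.DynBal

section Game

variable {A : Type} [Fintype A] [DecidableEq A] {n : ℕ}

/-- commands of the adversary -/
inductive Cmd (A : Type)
  | ins (a : A) : Cmd A
  | del (a : A) : Cmd A

/-- the state of the adversary: pending commands, names, present elements -/
structure GSt (A : Type) where
  pend : List (Cmd A)
  name : A → ℕ
  pres : Finset A

/-- the effect of a command on the names -/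
def cmdName (q : ℕ) (c : Cmd A) (ν : A → ℕ) : A → ℕ :=
  match c with
  | .ins a => Function.update ν a q
  | .del _ => ν

/-- the effect of a command on the set of present elements -/
def cmdPres (c : Cmd A) (S : Finset A) : Finset A :=
  match c with
  | .ins a => insert a S
  | .del a => S.erase a

/-- pending commands: refill when the list is empty -/
def orRefill (r : List (Cmd A)) (p : List (Cmd A)) : List (Cmd A) :=
  match p with
  | [] => r
  | c :: p' => c :: p'

/-- next state -/
def gnext (refill : (A → Bool) → List (Cmd A)) (q : ℕ) (σ : ℕ → Bool) (s : GSt A) : GSt A :=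
  match s.pend with
  | [] => s
  | c :: p =>
    { pend := orRefill (refill fun a => σ (cmdName q c s.name a)) p
      name := cmdName q c s.name
      pres := cmdPres c s.pres }

/-- the state after a history -/
def gstate (refill : (A → Bool) → List (Cmd A)) (init : List (Cmd A)) :
    List (Update (n + 1) × (ℕ → Bool)) → GSt A
  | [] => ⟨init, fun _ => 0, ∅⟩
  | x :: h => gnext refill h.length x.2 (gstate refill init h)

/-- the vector inserted at time `q` for `a` -/
noncomputable def vv (φ : A → Fin n → ℝ) (q : ℕ) (a : A) : Fin (n + 1) → ℝ :=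
  Fin.cons (1 / (2 * ((q : ℝ) + 1))) (φ a)

/-- the update prescribed by a state -/
noncomputable def gemit (φ : A → Fin n → ℝ) (q : ℕ) (s : GSt A) : Update (n + 1) :=
  match s.pend with
  | [] => Update.insert 0
  | .ins a :: _ => Update.insert (vv φ q a)
  | .del a :: _ => Update.delete (s.name a)

/-- the adversary -/
noncomputable def gadv (φ : A → Fin n → ℝ) (refill : (A → Bool) → List (Cmd A))
    (init : List (Cmd A)) : Adversary (n + 1) :=
  fun h => gemit φ h.length (gstate refill init h)

/-- the pending commands are consistent and end with all elements present -/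
def Good : List (Cmd A) → Finset A → Prop
  | [], S => S = Finset.univ
  | .ins a :: p, S => a ∉ S ∧ Good p (insert a S)
  | .del a :: p, S => a ∈ S ∧ Good p (S.erase a)

lemma vv_zero (φ : A → Fin n → ℝ) (q : ℕ) (a : A) : vv φ q a 0 = 1 / (2 * ((q : ℝ) + 1)) := rfl

lemma vv_succ (φ : A → Fin n → ℝ) (q : ℕ) (a : A) (i : Fin n) : vv φ q a i.succ = φ a i := rfl

lemma vv_norm {φ : A → Fin n → ℝ} (hφ : ∀ a, ∑ i, (φ a i) ^ 2 ≤ 1 / 2) (q : ℕ) (a : A) :
    ∑ i, (vv φ q a i) ^ 2 ≤ 1 := by
  rw [Fin.sum_univ_succ]
  simp only [vv_zero, vv_succ]
  have h1 : (1 / (2 * ((q : ℝ) + 1))) ^ 2 ≤ 1 / 4 := by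
    have h2 : (1 : ℝ) / (2 * ((q : ℝ) + 1)) ≤ 1 / 2 := by
      apply one_div_le_one_div_of_le (by norm_num)
      have : (0 : ℝ) ≤ q := Nat.cast_nonneg q
      linarith
    have h3 : (0 : ℝ) ≤ 1 / (2 * ((q : ℝ) + 1)) := by positivity
    nlinarith
  have := hφ a
  linarith

lemma length_play (alg : Algorithm n) (adv : Adversary n) (q : ℕ) :
    (play alg adv q).length = q := by
  induction q with
  | zero => rfl
  | succ q ih => show (play alg adv q).length + 1 = q + 1; rw [ih]

lemma length_history (alg : Algorithm n) (adv : Adversary n) (q : ℕ) :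
    (history alg adv q).length = q := by
  unfold history; rw [List.length_map, length_play]

section Run

variable (φ : A → Fin n → ℝ) (refill : (A → Bool) → List (Cmd A)) (init : List (Cmd A))
  (alg : Algorithm (n + 1))

/-- the history -/
noncomputable abbrev HH (q : ℕ) : List (Update (n + 1)) := history alg (gadv φ refill init) q

/-- the state at time `q` -/
noncomputable def gs (q : ℕ) : GSt A := gstate refill init (play alg (gadv φ refill init) q)

lemma HH_succ (q : ℕ) : HH φ refill init alg (q + 1) =
    gemit φ q (gs φ refill init alg q) :: HH φ refill init alg q := by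
  show gadv φ refill init (play alg (gadv φ refill init) q) :: _ = _
  unfold gadv gs
  rw [length_play]
  rfl

lemma gs_succ (q : ℕ) : gs φ refill init alg (q + 1) =
    gnext refill q (alg (HH φ refill init alg (q + 1))) (gs φ refill init alg q) := by
  show gnext refill (play alg (gadv φ refill init) q).length _ _ = _
  rw [length_play]
  rfl

/-- the invariant -/
structure GInv (q : ℕ) : Prop where
  good : Good (gs φ refill init alg q).pend (gs φ refill init alg q).pres
  ne : (gs φ refill init alg q).pend ≠ []
  act : active (HH φ refill init alg q) =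
    (gs φ refill init alg q).pres.image (gs φ refill init alg q).name
  inj : Set.InjOn (gs φ refill init alg q).name (gs φ refill init alg q).pres
  lt : ∀ a ∈ (gs φ refill init alg q).pres, (gs φ refill init alg q).name a < q
  vec : ∀ a ∈ (gs φ refill init alg q).pres,
    vec (HH φ refill init alg q) ((gs φ refill init alg q).name a) =
      vv φ ((gs φ refill init alg q).name a) a
  old : ∀ b, Update.insert b ∈ HH φ refill init alg q → ∃ τ < q, b 0 = 1 / (2 * ((τ : ℝ) + 1))
  legal : LegalL2 (HH φ refill init alg q)

lemma orRefill_ne {r p : List (Cmd A)} (hr : r ≠ []) : orRefill r p ≠ [] := by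
  cases p with
  | nil => exact hr
  | cons c p => simp [orRefill]

lemma orRefill_good {r p : List (Cmd A)} {S : Finset A} (hr : Good r Finset.univ)
    (hp : Good p S) : Good (orRefill r p) S := by
  cases p with
  | nil =>
    have : S = Finset.univ := hp
    rw [this]; exact hr
  | cons c p => exact hp

variable {φ refill init}

lemma ginv (hφ : ∀ a, ∑ i, (φ a i) ^ 2 ≤ 1 / 2) (hr : ∀ σ, Good (refill σ) Finset.univ)
    (hrn : ∀ σ, refill σ ≠ []) (hi : Good init ∅) (hin : init ≠ []) (q : ℕ) :
    GInv φ refill init alg q := by
  induction q with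
  | zero =>
    exact
      { good := hi
        ne := hin
        act := rfl
        inj := by
          show Set.InjOn _ ((∅ : Finset A) : Set A)
          simp
        lt := fun a ha => absurd ha (Finset.notMem_empty a)
        vec := fun a ha => absurd ha (Finset.notMem_empty a)
        old := fun b hb => absurd hb List.not_mem_nil
        legal := trivial }
  | succ q ih =>
    obtain ⟨good, ne, act, inj, lt, hvec, old, legal⟩ := ih
    have hs := gs_succ φ refill init alg q
    have hH := HH_succ φ refill init alg q
    have hlen : (HH φ refill init alg q).length = q := length_history _ _ _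
    set s := gs φ refill init alg q with hs0
    obtain ⟨c, p, hcp⟩ := List.exists_cons_of_ne_nil ne
    have hs1 : gs φ refill init alg (q + 1) =
        { pend := orRefill (refill fun a => alg (HH φ refill init alg (q + 1))
            (cmdName q c s.name a)) p
          name := cmdName q c s.name
          pres := cmdPres c s.pres } := by
      rw [hs]; unfold gnext; rw [hcp]
    rw [hcp] at good
    cases c with
    | ins a =>
      obtain ⟨ha, hg⟩ := good
      have he : gemit φ q s = Update.insert (vv φ q a) := by unfold gemit; rw [hcp]
      rw [he] at hH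
      have hname : ∀ b ∈ s.pres, cmdName q (Cmd.ins a) s.name b = s.name b := by
        intro b hb
        have : b ≠ a := fun h => ha (h ▸ hb)
        show Function.update s.name a q b = s.name b
        rw [Function.update_of_ne this]
      have hnamea : cmdName q (Cmd.ins a) s.name a = q := by
        show Function.update s.name a q a = q
        rw [Function.update_self]
      refine
        { good := ?_
          ne := ?_
          act := ?_
          inj := ?_
          lt := ?_
          vec := ?_
          old := ?_
          legal := ?_ }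
      · rw [hs1]; exact orRefill_good (hr _) hg
      · rw [hs1]; exact orRefill_ne (hrn _)
      · rw [hs1, hH]
        show insert (HH φ refill init alg q).length (active (HH φ refill init alg q)) =
          (insert a s.pres).image (cmdName q (Cmd.ins a) s.name)
        rw [hlen, act, Finset.image_insert, hnamea]
        congr 1
        exact Finset.image_congr fun b hb => (hname b hb).symm
      · rw [hs1]
        show Set.InjOn (cmdName q (Cmd.ins a) s.name) ((insert a s.pres : Finset A) : Set A)
        intro x hx y hy hxy
        rw [Finset.mem_coe, Finset.mem_insert] at hx hy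
        rcases hx with hx | hx <;> rcases hy with hy | hy
        · rw [hx, hy]
        · rw [hx, hnamea, hname y hy] at hxy
          have := lt y hy
          omega
        · rw [hy, hnamea, hname x hx] at hxy
          have := lt x hx
          omega
        · rw [hname x hx, hname y hy] at hxy
          exact inj hx hy hxy
      · rw [hs1]
        intro x hx
        have hx' : x ∈ insert a s.pres := hx
        rw [Finset.mem_insert] at hx'
        show cmdName q (Cmd.ins a) s.name x < q + 1
        rcases hx' with h | h
        · rw [h, hnamea]; omega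
        · rw [hname x h]; have := lt x h; omega
      · rw [hs1, hH]
        intro x hx
        have hx' : x ∈ insert a s.pres := hx
        rw [Finset.mem_insert] at hx'
        show (if cmdName q (Cmd.ins a) s.name x = (HH φ refill init alg q).length then vv φ q a else
          vec (HH φ refill init alg q) (cmdName q (Cmd.ins a) s.name x)) =
          vv φ (cmdName q (Cmd.ins a) s.name x) x
        rcases hx' with h | h
        · rw [h, hnamea, hlen, if_pos rfl]
        · rw [hname x h, hlen, if_neg (by have := lt x h; omega)]
          exact hvec x h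
      · rw [hH]
        intro b hb
        rcases List.mem_cons.1 hb with h | h
        · have : b = vv φ q a := by injection h
          exact ⟨q, by omega, by rw [this]; rfl⟩
        · obtain ⟨τ, hτ, h2⟩ := old b h
          exact ⟨τ, by omega, h2⟩
      · rw [hH]
        refine ⟨vv_norm hφ q a, ?_, legal⟩
        intro b hb hba
        obtain ⟨τ, hτ, h2⟩ := old b hb
        rw [hba, vv_zero] at h2
        have h3 : (2 * ((q : ℝ) + 1)) = 2 * ((τ : ℝ) + 1) := by
          have h4 : (0 : ℝ) < 2 * ((q : ℝ) + 1) := by positivity
          have h5 : (0 : ℝ) < 2 * ((τ : ℝ) + 1) := by positivity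
          rw [one_div, one_div] at h2
          exact inv_injective h2
        have h6 : (q : ℝ) = τ := by linarith
        have h7 : q = τ := by exact_mod_cast h6
        omega
    | del a =>
      obtain ⟨ha, hg⟩ := good
      have he : gemit φ q s = Update.delete (s.name a) := by unfold gemit; rw [hcp]
      rw [he] at hH
      refine
        { good := ?_
          ne := ?_
          act := ?_
          inj := ?_
          lt := ?_
          vec := ?_
          old := ?_
          legal := ?_ }
      · rw [hs1]; exact orRefill_good (hr _) hg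
      · rw [hs1]; exact orRefill_ne (hrn _)
      · rw [hs1, hH]
        show (active (HH φ refill init alg q)).erase (s.name a) = (s.pres.erase a).image s.name
        rw [act]
        ext x
        simp only [Finset.mem_erase, Finset.mem_image]
        constructor
        · rintro ⟨h1, y, hy, rfl⟩
          exact ⟨y, ⟨fun h => h1 (by rw [h]), hy⟩, rfl⟩
        · rintro ⟨y, ⟨h1, hy⟩, rfl⟩
          exact ⟨fun h => h1 (inj hy ha h), y, hy, rfl⟩
      · rw [hs1]
        show Set.InjOn s.name ((s.pres.erase a : Finset A) : Set A)
        exact inj.mono (Finset.coe_subset.2 (Finset.erase_subset _ _))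
      · rw [hs1]
        intro x hx
        have hx' : x ∈ s.pres.erase a := hx
        show s.name x < q + 1
        have := lt x (Finset.mem_of_mem_erase hx')
        omega
      · rw [hs1, hH]
        intro x hx
        have hx' : x ∈ s.pres.erase a := hx
        exact hvec x (Finset.mem_of_mem_erase hx')
      · rw [hH]
        intro b hb
        rcases List.mem_cons.1 hb with h | h
        · cases h
        · obtain ⟨τ, hτ, h2⟩ := old b h
          exact ⟨τ, by omega, h2⟩
      · rw [hH]
        refine ⟨?_, legal⟩
        rw [act]
        exact Finset.mem_image_of_mem _ ha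

end Run

/-! ### Dynamics -/

/-- insertions -/
def insL (l : List A) : List (Cmd A) := l.map Cmd.ins
/-- deletions -/
def delL (l : List A) : List (Cmd A) := l.map Cmd.del

lemma good_ins : ∀ (l : List A) (S : Finset A), l.Nodup → (∀ a ∈ l, a ∉ S) →
    (∀ a, a ∈ S ∨ a ∈ l) → Good (insL l) S
  | [], S, _, _, h => Finset.eq_univ_iff_forall.2 fun a => (h a).resolve_right List.not_mem_nil
  | a :: l, S, hn, hd, h => by
    rw [List.nodup_cons] at hn
    refine ⟨hd a (by simp), good_ins l (insert a S) hn.2 ?_ ?_⟩
    · intro b hb hb2
      rcases Finset.mem_insert.1 hb2 with h1 | h1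
      · exact hn.1 (h1 ▸ hb)
      · exact hd b (by simp [hb]) h1
    · intro b
      rcases h b with h1 | h1
      · exact Or.inl (Finset.mem_insert_of_mem h1)
      · rcases List.mem_cons.1 h1 with h2 | h2
        · exact Or.inl (h2 ▸ Finset.mem_insert_self _ _)
        · exact Or.inr h2

lemma good_del (p : List (Cmd A)) : ∀ (l : List A) (S : Finset A), l.Nodup → (∀ a ∈ l, a ∈ S) →
    Good p (S \ l.toFinset) → Good (delL l ++ p) S
  | [], S, _, _, h => by simpa [delL] using h
  | a :: l, S, hn, hd, h => by
    rw [List.nodup_cons] at hn
    refine ⟨hd a (by simp), good_del p l (S.erase a) hn.2 ?_ ?_⟩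
    · intro b hb
      rw [Finset.mem_erase]
      exact ⟨fun h1 => hn.1 (h1 ▸ hb), hd b (by simp [hb])⟩
    · have : S.erase a \ l.toFinset = S \ (a :: l).toFinset := by
        ext b
        simp only [Finset.mem_sdiff, Finset.mem_erase, List.toFinset_cons, Finset.mem_insert]
        tauto
      rw [this]; exact h

section Run2

variable (φ : A → Fin n → ℝ) (refill : (A → Bool) → List (Cmd A)) (init : List (Cmd A))
  (alg : Algorithm (n + 1))

lemma adv_pend {q : ℕ} {c : Cmd A} {p : List (Cmd A)}
    (h : (gs φ refill init alg q).pend = c :: p) (hp : p ≠ []) :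
    (gs φ refill init alg (q + 1)).pend = p ∧
    (gs φ refill init alg (q + 1)).name = cmdName q c (gs φ refill init alg q).name ∧
    (gs φ refill init alg (q + 1)).pres = cmdPres c (gs φ refill init alg q).pres := by
  have hs := gs_succ φ refill init alg q
  unfold gnext at hs
  rw [h] at hs
  rw [hs]
  refine ⟨?_, rfl, rfl⟩
  cases p with
  | nil => exact absurd rfl hp
  | cons c p => rfl

lemma adv_last {q : ℕ} {c : Cmd A} (h : (gs φ refill init alg q).pend = [c]) :
    (gs φ refill init alg (q + 1)).pend = refill (fun a => alg (HH φ refill init alg (q + 1))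
      ((gs φ refill init alg (q + 1)).name a)) ∧
    (gs φ refill init alg (q + 1)).pres = cmdPres c (gs φ refill init alg q).pres := by
  have hs := gs_succ φ refill init alg q
  unfold gnext at hs
  rw [h] at hs
  rw [hs]
  exact ⟨rfl, rfl⟩

/-- the beginning of a phase -/
def PhaseStart (q : ℕ) : Prop :=
  (gs φ refill init alg q).pend = refill (fun a => alg (HH φ refill init alg q)
    ((gs φ refill init alg q).name a)) ∧ (gs φ refill init alg q).pres = Finset.univ

lemma good_last {c : Cmd A} {S : Finset A} (h : Good [c] S) : cmdPres c S = Finset.univ := by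
  cases c with
  | ins a => exact h.2
  | del a => exact h.2

variable {φ refill init}

lemma run_to_end (hI : ∀ q, GInv φ refill init alg q) : ∀ (p : List (Cmd A)) (q : ℕ),
    (gs φ refill init alg q).pend = p → p ≠ [] → PhaseStart φ refill init alg (q + p.length)
  | [], _, _, hp => absurd rfl hp
  | [c], q, h, _ => by
    obtain ⟨h1, h2⟩ := adv_last φ refill init alg h
    refine ⟨h1, ?_⟩
    show (gs φ refill init alg (q + 1)).pres = _
    rw [h2]
    have := (hI q).good
    rw [h] at this
    exact good_last this
  | c :: c' :: p, q, h, _ => by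
    have h1 := (adv_pend φ refill init alg h (by simp)).1
    have := run_to_end hI (c' :: p) (q + 1) h1 (by simp)
    have e : q + (c :: c' :: p).length = q + 1 + (c' :: p).length := by
      simp only [List.length_cons]; omega
    rw [e]; exact this

lemma del_phase {p : List (Cmd A)} (hp : p ≠ []) : ∀ (l : List A) (q : ℕ),
    (gs φ refill init alg q).pend = delL l ++ p →
    (∀ s ≤ l.length, (gs φ refill init alg (q + s)).name = (gs φ refill init alg q).name ∧
      ∀ a ∈ (gs φ refill init alg q).pres, a ∉ l → a ∈ (gs φ refill init alg (q + s)).pres) ∧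
    (gs φ refill init alg (q + l.length)).pres = (gs φ refill init alg q).pres \ l.toFinset
  | [], q, _ => by
    refine ⟨?_, by simp⟩
    intro s hs
    have : s = 0 := by simpa using hs
    rw [this]
    exact ⟨rfl, fun a ha _ => ha⟩
  | a :: l, q, h => by
    obtain ⟨h1, h2, h3⟩ := adv_pend φ refill init alg (c := Cmd.del a) (p := delL l ++ p) h
      (by simp [hp])
    obtain ⟨h4, h5⟩ := del_phase hp l (q + 1) h1
    have h3' : (gs φ refill init alg (q + 1)).pres = (gs φ refill init alg q).pres.erase a := h3
    have h2' : (gs φ refill init alg (q + 1)).name = (gs φ refill init alg q).name := h2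
    refine ⟨?_, ?_⟩
    · intro s hs
      cases s with
      | zero => exact ⟨rfl, fun b hb _ => hb⟩
      | succ s =>
        have hs' : s ≤ l.length := by simpa using hs
        obtain ⟨h6, h7⟩ := h4 s hs'
        have e : q + (s + 1) = q + 1 + s := by omega
        rw [e, h6, h2']
        refine ⟨rfl, fun b hb hbl => h7 b ?_ ?_⟩
        · rw [h3', Finset.mem_erase]
          exact ⟨fun h => hbl (by simp [h]), hb⟩
        · exact fun h => hbl (by simp [h])
    · have e : q + (a :: l).length = q + 1 + l.length := by
        simp only [List.length_cons]; omega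
      rw [e, h5, h3']
      ext b
      simp only [Finset.mem_sdiff, Finset.mem_erase, List.toFinset_cons, Finset.mem_insert]
      tauto

/-- the recourse of one step bounds the number of changes -/
lemma step_recourse (hI : ∀ q, GInv φ refill init alg q) {q : ℕ} {ν : A → ℕ}
    (h1 : (gs φ refill init alg q).name = ν) (h2 : (gs φ refill init alg (q + 1)).name = ν)
    {D : Finset A} (hD1 : D ⊆ (gs φ refill init alg q).pres)
    (hD2 : D ⊆ (gs φ refill init alg (q + 1)).pres) :
    (D.filter (fun a => alg (HH φ refill init alg q) (ν a) ≠
      alg (HH φ refill init alg (q + 1)) (ν a))).card ≤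
    recourse (HH φ refill init alg q) (HH φ refill init alg (q + 1))
      (alg (HH φ refill init alg q)) (alg (HH φ refill init alg (q + 1))) := by
  unfold recourse
  refine Finset.card_le_card_of_injOn ν ?_ ?_
  · intro a ha
    obtain ⟨ha1, ha2⟩ := Finset.mem_filter.1 (Finset.mem_coe.1 ha)
    rw [Finset.mem_coe, Finset.mem_filter, Finset.mem_inter]
    refine ⟨⟨?_, ?_⟩, ha2⟩
    · rw [(hI q).act, h1]
      exact Finset.mem_image_of_mem _ (hD1 ha1)
    · rw [(hI (q + 1)).act, h2]
      exact Finset.mem_image_of_mem _ (hD2 ha1)
  · intro a ha b hb hab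
    have ha1 := (Finset.mem_filter.1 (Finset.mem_coe.1 ha)).1
    have hb1 := (Finset.mem_filter.1 (Finset.mem_coe.1 hb)).1
    refine (hI q).inj (hD1 ha1) (hD1 hb1) ?_
    rw [h1]; exact hab

end Run2

omit [Fintype A] in
lemma change_triangle (D : Finset A) (f : ℕ → A → Bool) (t : ℕ) :
    (D.filter (fun a => f 0 a ≠ f t a)).card ≤
      ∑ s ∈ Finset.range t, (D.filter (fun a => f s a ≠ f (s + 1) a)).card := by
  induction t with
  | zero => simp
  | succ t ih =>
    rw [Finset.sum_range_succ]
    refine le_trans ?_ (Nat.add_le_add_right ih _)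
    refine le_trans (Finset.card_le_card ?_) (Finset.card_union_le _ _)
    intro a ha
    rw [Finset.mem_filter] at ha
    rw [Finset.mem_union, Finset.mem_filter, Finset.mem_filter]
    by_cases h : f 0 a = f t a
    · right; exact ⟨ha.1, fun h2 => ha.2 (h.trans h2)⟩
    · left; exact ⟨ha.1, h⟩

lemma signedSum_eq {φ : A → Fin n → ℝ} {refill : (A → Bool) → List (Cmd A)}
    {init : List (Cmd A)} {alg : Algorithm (n + 1)} {q : ℕ}
    (hI : GInv φ refill init alg q) (σ : ℕ → Bool) (i : Fin n) :
    signedSum (HH φ refill init alg q) σ i.succ =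
      ∑ a ∈ (gs φ refill init alg q).pres,
        sgn (σ ((gs φ refill init alg q).name a)) * φ a i := by
  unfold signedSum
  rw [hI.act, Finset.sum_image (fun x hx y hy h => hI.inj hx hy h)]
  refine Finset.sum_congr rfl fun a ha => ?_
  rw [hI.vec a ha, vv_succ]

/-- G: the game. -/
theorem game {A ι : Type} [Fintype A] [DecidableEq A] [Nonempty ι] {n : ℕ}
    (φ : A → Fin n → ℝ) (hφ : ∀ a, ∑ i, (φ a i) ^ 2 ≤ 1 / 2)
    (E : ι → Finset A) (t : ℕ) (ht : 0 < t) (hE : ∀ J, (E J).card = t) (L Φ : ℝ)
    (hstat : ∀ σ : A → Bool, (∀ i, |∑ a, sgn (σ a) * φ a i| ≤ L) → ∃ J, ∀ σ' : A → Bool,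
      (∀ i, |∑ a ∈ (E J)ᶜ, sgn (σ' a) * φ a i| ≤ L) →
      Φ ≤ (((E J)ᶜ.filter (fun a => σ a ≠ σ' a)).card : ℝ)) :
    ∃ adv : Adversary (n + 1), ∀ alg : Algorithm (n + 1),
      (∀ q, LegalL2 (history alg adv q)) ∧
      ∀ R : ℕ,
      ((∃ q ≤ Fintype.card A + 2 * t * R, ∃ i,
        L < |signedSum (history alg adv q) (alg (history alg adv q)) i|) ∨
      R * Φ ≤ ∑ q ∈ Finset.range (Fintype.card A + 2 * t * R),
        (recourse (history alg adv q) (history alg adv (q + 1))
          (alg (history alg adv q)) (alg (history alg adv (q + 1))) : ℝ)) := by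
  classical
  -- the test chosen for given signs
  have hch : ∀ σ : A → Bool, ∃ J : ι, (∀ i, |∑ a, sgn (σ a) * φ a i| ≤ L) →
      ∀ σ' : A → Bool, (∀ i, |∑ a ∈ (E J)ᶜ, sgn (σ' a) * φ a i| ≤ L) →
      Φ ≤ (((E J)ᶜ.filter (fun a => σ a ≠ σ' a)).card : ℝ) := by
    intro σ
    by_cases h : ∀ i, |∑ a, sgn (σ a) * φ a i| ≤ L
    · obtain ⟨J, hJ⟩ := hstat σ h
      exact ⟨J, fun _ => hJ⟩
    · exact ⟨Classical.arbitrary ι, fun h' => absurd h' h⟩
  choose J hJ using hch
  set refill : (A → Bool) → List (Cmd A) := fun σ =>
    delL (E (J σ)).toList ++ insL (E (J σ)).toList with hrefill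
  set init : List (Cmd A) := insL (Finset.univ : Finset A).toList with hinit
  have hEne : ∀ σ, (E (J σ)).toList ≠ [] := by
    intro σ h
    have h1 : (E (J σ)).toList.length = 0 := by rw [h]; rfl
    rw [Finset.length_toList, hE] at h1
    omega
  have hlenE : ∀ σ, (E (J σ)).toList.length = t := by
    intro σ
    rw [Finset.length_toList, hE]
  have hr : ∀ σ, Good (refill σ) Finset.univ := by
    intro σ
    refine good_del _ _ _ (Finset.nodup_toList _) (fun a _ => Finset.mem_univ a) ?_
    refine good_ins _ _ (Finset.nodup_toList _) ?_ ?_
    · intro a ha hb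
      rw [Finset.mem_sdiff] at hb
      exact hb.2 (List.mem_toFinset.2 ha)
    · intro a
      rw [Finset.mem_sdiff, List.mem_toFinset]
      by_cases h : a ∈ (E (J σ)).toList
      · exact Or.inr h
      · exact Or.inl ⟨Finset.mem_univ _, h⟩
  have hins : ∀ σ, insL (E (J σ)).toList ≠ [] := by
    intro σ h
    exact hEne σ (List.map_eq_nil_iff.1 h)
  have hrn : ∀ σ, refill σ ≠ [] := by
    intro σ h
    exact hins σ (List.append_eq_nil_iff.1 h).2
  have hlenr : ∀ σ, (refill σ).length = 2 * t := by
    intro σ
    simp only [hrefill, delL, insL, List.length_append, List.length_map, hlenE]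
    omega
  have hi : Good init ∅ := by
    refine good_ins _ _ (Finset.nodup_toList _) (fun a _ => Finset.notMem_empty a) ?_
    intro a
    exact Or.inr (Finset.mem_toList.2 (Finset.mem_univ a))
  have hleni : init.length = Fintype.card A := by
    simp [hinit, insL]
  have hin : init ≠ [] := by
    intro h
    have h1 : (Finset.univ : Finset A).toList = [] := List.map_eq_nil_iff.1 h
    obtain ⟨a, ha⟩ := List.exists_mem_of_ne_nil _ (hEne (fun _ => true))
    have h2 : a ∈ (Finset.univ : Finset A).toList := Finset.mem_toList.2 (Finset.mem_univ a)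
    rw [h1] at h2
    exact absurd h2 List.not_mem_nil
  refine ⟨gadv φ refill init, fun alg => ?_⟩
  have hI : ∀ q, GInv φ refill init alg q := fun q => ginv alg hφ hr hrn hi hin q
  refine ⟨fun q => (hI q).legal, ?_⟩
  have hPS : ∀ k, PhaseStart φ refill init alg (Fintype.card A + 2 * t * k) := by
    intro k
    induction k with
    | zero =>
      have := run_to_end alg hI init 0 rfl hin
      rw [hleni] at this
      simpa using this
    | succ k ih =>
      have := run_to_end alg hI _ _ ih.1 (hrn _)
      rw [hlenr] at this
      have e : Fintype.card A + 2 * t * (k + 1) = Fintype.card A + 2 * t * k + 2 * t := by ring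
      rw [e]; exact this
  -- one phase
  have hphase : ∀ q, PhaseStart φ refill init alg q →
      (∀ q' ≤ q + 2 * t, ∀ i, |signedSum (HH φ refill init alg q')
        (alg (HH φ refill init alg q')) i| ≤ L) →
      Φ ≤ ∑ s ∈ Finset.range (2 * t), (recourse (HH φ refill init alg (q + s))
        (HH φ refill init alg (q + s + 1)) (alg (HH φ refill init alg (q + s)))
        (alg (HH φ refill init alg (q + s + 1))) : ℝ) := by
    intro q hq hL
    obtain ⟨hq1, hq2⟩ := hq
    set ν := (gs φ refill init alg q).name with hν
    set σ : A → Bool := fun a => alg (HH φ refill init alg q) (ν a) with hσ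
    obtain ⟨hd1, hd2⟩ := del_phase alg (hins σ) (E (J σ)).toList q hq1
    rw [hlenE] at hd1 hd2
    have hpres : (gs φ refill init alg (q + t)).pres = (E (J σ))ᶜ := by
      rw [hd2, hq2]
      ext a
      simp
    have hdisc : ∀ i, |∑ a, sgn (σ a) * φ a i| ≤ L := by
      intro i
      have := hL q (by omega) i.succ
      rw [signedSum_eq (hI q), hq2] at this
      exact this
    have hdisc2 : ∀ i, |∑ a ∈ (E (J σ))ᶜ,
        sgn (alg (HH φ refill init alg (q + t)) (ν a)) * φ a i| ≤ L := by
      intro i
      have := hL (q + t) (by omega) i.succ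
      rw [signedSum_eq (hI (q + t)), hpres, (hd1 t le_rfl).1] at this
      exact this
    have h1 := hJ σ hdisc (fun a => alg (HH φ refill init alg (q + t)) (ν a)) hdisc2
    have h2 := change_triangle (E (J σ))ᶜ
      (fun s a => alg (HH φ refill init alg (q + s)) (ν a)) t
    have h3 : ∀ s ∈ Finset.range t, ((E (J σ))ᶜ.filter (fun a =>
        alg (HH φ refill init alg (q + s)) (ν a) ≠
        alg (HH φ refill init alg (q + (s + 1))) (ν a))).card ≤
        recourse (HH φ refill init alg (q + s)) (HH φ refill init alg (q + s + 1))
          (alg (HH φ refill init alg (q + s))) (alg (HH φ refill init alg (q + s + 1))) := by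
      intro s hs
      rw [Finset.mem_range] at hs
      refine step_recourse alg hI (hd1 s hs.le).1 (hd1 (s + 1) hs).1 ?_ ?_
      · intro a ha
        refine (hd1 s hs.le).2 a (by rw [hq2]; exact Finset.mem_univ a) ?_
        rw [Finset.mem_compl] at ha
        rwa [Finset.mem_toList]
      · intro a ha
        refine (hd1 (s + 1) hs).2 a (by rw [hq2]; exact Finset.mem_univ a) ?_
        rw [Finset.mem_compl] at ha
        rwa [Finset.mem_toList]
    have h4 : ((E (J σ))ᶜ.filter (fun a => σ a ≠
        alg (HH φ refill init alg (q + t)) (ν a))).card ≤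
        ∑ s ∈ Finset.range (2 * t), recourse (HH φ refill init alg (q + s))
        (HH φ refill init alg (q + s + 1)) (alg (HH φ refill init alg (q + s)))
        (alg (HH φ refill init alg (q + s + 1))) := by
      calc _ ≤ _ := h2
        _ ≤ _ := Finset.sum_le_sum h3
        _ ≤ _ := Finset.sum_le_sum_of_subset (Finset.range_subset_range.2 (by omega))
    calc Φ ≤ _ := h1
      _ ≤ _ := by exact_mod_cast h4
  intro R
  by_cases hbad : ∃ q ≤ Fintype.card A + 2 * t * R, ∃ i,
        L < |signedSum (history alg (gadv φ refill init) q)
          (alg (history alg (gadv φ refill init) q)) i|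
  · exact Or.inl hbad
  · right
    push Not at hbad
    clear hleni
    induction R with
    | zero =>
      simp only [Nat.cast_zero, zero_mul]
      exact Finset.sum_nonneg fun _ _ => Nat.cast_nonneg _
    | succ R ih =>
      have e : Fintype.card A + 2 * t * (R + 1) = (Fintype.card A + 2 * t * R) + 2 * t := by ring
      have h1 := ih (fun q hq => hbad q (by rw [e]; omega))
      have h2 := hphase _ (hPS R) (fun q' hq' => hbad q' (by rw [e]; exact hq'))
      rw [e, Finset.sum_range_add]
      push_cast
      rw [add_mul, one_mul]
      exact add_le_add h1 h2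

end Game

end Pool.Agent.DynNeg
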