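import Mathlib
import Pool.Agent.DynNeg.Defs

/-!
# The static lemma, abstract form
-/

set_option autoImplicit false
set_option linter.unusedSectionVars false

namespace Pool.Agent.DynNeg

open Finset Pool.Agent.DynBal

theorem sgn_xor (a b : Bool) : sgn (xor a b) = -(sgn a * sgn b) := by
  cases a <;> cases b <;> simp [sgn]

theorem abs_sgn (a : Bool) : |sgn a| = 1 := by
  cases a <;> simp [sgn]

theorem abs_sgn_sub (a b : Bool) : |sgn a - sgn b| = if a ≠ b then 2 else 0 := by
  cases a <;> cases b <;> simp [sgn] <;> norm_num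

/-- The vectors of the construction. -/
noncomputable def phi {A Y I V : Type} [Fintype Y] [DecidableEq I]
    (e : A × Y ≃ I × V) (ε : A × Y → Bool) (w : ℝ) (a : A) (i : I) : ℝ :=
  ∑ y, if (e (a, y)).1 = i then w * sgn (ε (a, y)) else 0

section
variable {A Y I V : Type} [Fintype A] [Fintype Y] [Fintype I] [Fintype V]
    [DecidableEq A] [DecidableEq Y] [DecidableEq I] [DecidableEq V]

theorem sum_phi (e : A × Y ≃ I × V) (ε : A × Y → Bool) (w : ℝ) (g : A → ℝ) (i : I) :
    ∑ a, g a * phi e ε w a i =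
      w * ∑ b, g (e.symm (i, b)).1 * sgn (ε (e.symm (i, b))) := by
  classical
  have h1 : ∑ a, g a * phi e ε w a i =
      ∑ p : A × Y, g p.1 * (if (e p).1 = i then w * sgn (ε p) else 0) := by
    rw [Fintype.sum_prod_type]
    refine Finset.sum_congr rfl fun a _ => ?_
    rw [phi, Finset.mul_sum]
  rw [h1, ← Equiv.sum_comp e.symm, Fintype.sum_prod_type]
  simp only [Equiv.apply_symm_apply]
  rw [Finset.sum_eq_single i]
  · rw [Finset.mul_sum]
    refine Finset.sum_congr rfl fun b _ => ?_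
    rw [if_pos rfl]
    ring
  · intro i' _ hne
    refine Finset.sum_eq_zero fun b _ => ?_
    rw [if_neg hne, mul_zero]
  · intro h
    exact absurd (Finset.mem_univ i) h

theorem abs_phi_le (e : A × Y ≃ I × V) (ε : A × Y → Bool) (w : ℝ) (hw : 0 < w) (a : A) (i : I) :
    |phi e ε w a i| ≤ ∑ y, if (e (a, y)).1 = i then w else 0 := by
  refine (Finset.abs_sum_le_sum_abs _ _).trans ?_
  refine Finset.sum_le_sum fun y _ => ?_
  split_ifs
  · rw [abs_mul, abs_sgn, mul_one, abs_of_pos hw]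
  · simp

theorem sum_abs_phi_le (e : A × Y ≃ I × V) (ε : A × Y → Bool) (w : ℝ) (hw : 0 < w) (a : A)
    (s : Finset I) (hs : (univ.filter (fun y => (e (a, y)).1 ∈ s)).card ≤ 1) :
    ∑ i ∈ s, |phi e ε w a i| ≤ w := by
  calc ∑ i ∈ s, |phi e ε w a i| ≤ ∑ i ∈ s, ∑ y, (if (e (a, y)).1 = i then w else 0) :=
        Finset.sum_le_sum fun i _ => abs_phi_le e ε w hw a i
    _ = ∑ y, ∑ i ∈ s, (if (e (a, y)).1 = i then w else 0) := Finset.sum_comm
    _ = ∑ y, (if (e (a, y)).1 ∈ s then w else 0) := by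
        refine Finset.sum_congr rfl fun y _ => ?_
        rw [Finset.sum_ite_eq]
    _ = ((univ.filter (fun y => (e (a, y)).1 ∈ s)).card : ℝ) * w := by
        rw [← Finset.sum_filter, Finset.sum_const, nsmul_eq_mul]
    _ ≤ 1 * w := by
        gcongr
        exact_mod_cast hs
    _ = w := one_mul w

theorem static_abs {ι : Type} [Fintype ι]
    (e : A × Y ≃ I × V) (H : V → V → ℝ)
    (hpm : ∀ l b, H l b = 1 ∨ H l b = -1) (o : V) (ho : ∀ b, H o b = 1)
    (E : ι → Finset A) (Is : ι → Finset I) (lam : ι → V) (s : ℕ)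
    (hs : ∀ J, (Is J).card = s)
    (hι : Fintype.card ι * s ≤ Fintype.card V * Fintype.card I)
    (T1 : ∀ J, ∀ i ∈ Is J, ∀ b, (e.symm (i, b)).1 ∈ E J ↔ H (lam J) b = 1)
    (T2 : ∀ J, ∀ a, a ∉ E J → (univ.filter (fun y => (e (a, y)).1 ∈ Is J)).card ≤ 1)
    (T3 : ∀ g : I → V → ℝ, ∑ J, ∑ i ∈ Is J, g i (lam J) = ∑ i, ∑ l ∈ univ.erase o, g i l)
    (D : ℝ) (ε : A × Y → Bool)
    (hε : ∀ σ : A → Bool, 2 * ((Finset.univ : Finset I).filter (fun i =>
      ∑ l, |∑ b, H l b * sgn (xor (σ (e.symm (i, b)).1) (ε (e.symm (i, b))))| < D)).card <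
        Fintype.card I)
    (w L : ℝ) (hw : 0 < w) (hL : 2 * (Fintype.card V : ℝ) * L ≤ w * D)
    (hD : 0 < D)
    (σ : A → Bool) (hσ : ∀ i, |∑ a, sgn (σ a) * phi e ε w a i| ≤ L) :
    ∃ J, ∀ σ' : A → Bool, (∀ i, |∑ a ∈ (E J)ᶜ, sgn (σ' a) * phi e ε w a i| ≤ L) →
      s * (D / (8 * Fintype.card V) - 5 / 4 * (L / w)) ≤
        (((E J)ᶜ.filter (fun a => σ a ≠ σ' a)).card : ℝ) := by
  classical
  set hat : I → V → ℝ := fun i l =>
    ∑ b, H l b * sgn (xor (σ (e.symm (i, b)).1) (ε (e.symm (i, b)))) with hhat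
  set r : ℝ := (Fintype.card V : ℝ) with hr
  set n : ℝ := (Fintype.card I : ℝ) with hn
  have hIpos : 0 < Fintype.card I := by
    have := hε σ
    omega
  have hVpos : 0 < r := by
    rw [hr]
    exact_mod_cast Fintype.card_pos_iff.2 ⟨o⟩
  -- the signed sum of a coordinate
  have h0 : ∀ i, w * |hat i o| ≤ L := by
    intro i
    have h1 : ∑ a, sgn (σ a) * phi e ε w a i = -(w * hat i o) := by
      rw [sum_phi e ε w (fun a => sgn (σ a)) i, hhat]
      simp only [ho, one_mul, sgn_xor, Finset.sum_neg_distrib]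
      ring
    have h2 := hσ i
    rw [h1, abs_neg, abs_mul, abs_of_pos hw] at h2
    exact h2
  -- the part of the signed sum inside `E J`
  have h1 : ∀ J, ∀ i ∈ Is J, ∑ a ∈ E J, sgn (σ a) * phi e ε w a i =
      -(w / 2 * (hat i o + hat i (lam J))) := by
    intro J i hi
    have h2 : ∑ a ∈ E J, sgn (σ a) * phi e ε w a i =
        ∑ a, (if a ∈ E J then sgn (σ a) else 0) * phi e ε w a i := by
      rw [← Finset.sum_filter_add_sum_filter_not (univ : Finset A) (fun a => a ∈ E J)]
      rw [Finset.sum_congr rfl (g := fun a => sgn (σ a) * phi e ε w a i)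
        (s₁ := univ.filter (fun a => a ∈ E J))
        (fun a ha => by rw [if_pos (Finset.mem_filter.1 ha).2])]
      rw [Finset.sum_eq_zero (s := univ.filter (fun a => a ∉ E J))
        (fun a ha => by rw [if_neg (Finset.mem_filter.1 ha).2, zero_mul]), add_zero]
      refine Finset.sum_congr ?_ fun _ _ => rfl
      ext a
      simp
    rw [h2, sum_phi e ε w (fun a => if a ∈ E J then sgn (σ a) else 0) i, hhat]
    simp only [ho, one_mul, sgn_xor]
    rw [← Finset.sum_add_distrib, ← mul_neg, ← Finset.sum_neg_distrib, Finset.mul_sum,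
      Finset.mul_sum]
    refine Finset.sum_congr rfl fun b _ => ?_
    by_cases hb : H (lam J) b = 1
    · rw [if_pos ((T1 J i hi b).2 hb), hb]
      ring
    · rw [if_neg (fun h => hb ((T1 J i hi b).1 h)), (hpm (lam J) b).resolve_left hb]
      ring
  -- averaging over the tests
  have h2 : n * (w * D / 4 - r * L / 2) <
      ∑ J, ∑ i ∈ Is J, (w / 2 * |hat i (lam J)| - L / 2) := by
    rw [T3 (fun i l => w / 2 * |hat i l| - L / 2)]
    have h3 : ∀ i, w / 2 * ∑ l, |hat i l| - r * L / 2 ≤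
        ∑ l ∈ univ.erase o, (w / 2 * |hat i l| - L / 2) := by
      intro i
      have h4 : ∑ l, |hat i l| = |hat i o| + ∑ l ∈ univ.erase o, |hat i l| := by
        exact (Finset.add_sum_erase univ (fun l => |hat i l|) (Finset.mem_univ o)).symm
      rw [Finset.sum_sub_distrib, ← Finset.mul_sum, Finset.sum_const, nsmul_eq_mul,
        Finset.card_erase_of_mem (Finset.mem_univ o), Finset.card_univ, h4]
      have h5 : ((Fintype.card V - 1 : ℕ) : ℝ) = r - 1 := by
        rw [Nat.cast_sub (Fintype.card_pos_iff.2 ⟨o⟩), Nat.cast_one]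
      rw [h5]
      have h6 := h0 i
      nlinarith
    have h4 : ∑ i, (w / 2 * ∑ l, |hat i l| - r * L / 2) ≤
        ∑ i, ∑ l ∈ univ.erase o, (w / 2 * |hat i l| - L / 2) :=
      Finset.sum_le_sum fun i _ => h3 i
    refine lt_of_lt_of_le ?_ h4
    rw [Finset.sum_sub_distrib, Finset.sum_const, nsmul_eq_mul, Finset.card_univ, ← hn,
      ← Finset.mul_sum]
    set bad := (Finset.univ : Finset I).filter (fun i => ∑ l, |hat i l| < D) with hbad
    have h5 : 2 * bad.card < Fintype.card I := hε σ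
    have h6 : ((Fintype.card I - bad.card : ℕ) : ℝ) * D ≤ ∑ i, ∑ l, |hat i l| := by
      have h7 : (badᶜ).card = Fintype.card I - bad.card := Finset.card_compl _
      rw [← h7]
      calc ((badᶜ).card : ℝ) * D = ∑ i ∈ badᶜ, D := by
            rw [Finset.sum_const, nsmul_eq_mul]
        _ ≤ ∑ i ∈ badᶜ, ∑ l, |hat i l| := by
            refine Finset.sum_le_sum fun i hi => ?_
            rw [Finset.mem_compl, hbad, Finset.mem_filter, not_and] at hi
            exact not_lt.1 (hi (Finset.mem_univ _))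
        _ ≤ ∑ i, ∑ l, |hat i l| := by
            refine Finset.sum_le_sum_of_subset_of_nonneg (Finset.subset_univ _) ?_
            intro i _ _
            exact Finset.sum_nonneg fun l _ => abs_nonneg _
    have h7 : n / 2 * D < ∑ i, ∑ l, |hat i l| := by
      refine lt_of_lt_of_le ?_ h6
      refine mul_lt_mul_of_pos_right ?_ hD
      rw [Nat.cast_sub (by omega)]
      have h8 : (2 : ℝ) * bad.card < n := by
        rw [hn]
        exact_mod_cast h5
      rw [← hn]
      linarith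
    have h8 : w / 2 * (n / 2 * D) < w / 2 * ∑ i, ∑ l, |hat i l| :=
      mul_lt_mul_of_pos_left h7 (by positivity)
    nlinarith
  have h3 : ∃ J, s * (w * D / (4 * r) - L / 2) ≤
      ∑ i ∈ Is J, (w / 2 * |hat i (lam J)| - L / 2) := by
    by_contra hcon
    push Not at hcon
    have h4 : ∑ J, ∑ i ∈ Is J, (w / 2 * |hat i (lam J)| - L / 2) ≤
        ∑ _J : ι, s * (w * D / (4 * r) - L / 2) :=
      Finset.sum_le_sum fun J _ => (hcon J).le
    rw [Finset.sum_const, nsmul_eq_mul, Finset.card_univ] at h4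
    have h5 : 0 ≤ w * D / (4 * r) - L / 2 := by
      rw [sub_nonneg, le_div_iff₀ (by positivity)]
      nlinarith
    have h6 : ((Fintype.card ι : ℝ) * s) ≤ r * n := by
      rw [hr, hn]
      exact_mod_cast hι
    have h7 : (Fintype.card ι : ℝ) * (s * (w * D / (4 * r) - L / 2)) ≤
        n * (w * D / 4 - r * L / 2) := by
      calc _ = ((Fintype.card ι : ℝ) * s) * (w * D / (4 * r) - L / 2) := by ring
        _ ≤ (r * n) * (w * D / (4 * r) - L / 2) := mul_le_mul_of_nonneg_right h6 h5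
        _ = _ := by
          field_simp
    linarith
  obtain ⟨J, hJ⟩ := h3
  refine ⟨J, fun σ' hσ' => ?_⟩
  set F := (E J)ᶜ.filter (fun a => σ a ≠ σ' a) with hF
  -- the upper bound
  have h4 : ∀ i ∈ Is J, w / 2 * |hat i (lam J)| - L / 2 ≤
      2 * L + 2 * ∑ a ∈ F, |phi e ε w a i| := by
    intro i hi
    have h5 : w / 2 * |hat i (lam J)| - L / 2 ≤ |∑ a ∈ E J, sgn (σ a) * phi e ε w a i| := by
      rw [h1 J i hi, abs_neg, abs_mul, abs_of_pos (by positivity : 0 < w / 2)]
      have h6 : |hat i (lam J)| ≤ |hat i o + hat i (lam J)| + |hat i o| := by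
        have := abs_sub (hat i o + hat i (lam J)) (hat i o)
        rw [add_sub_cancel_left] at this
        exact this
      have h7 := h0 i
      nlinarith
    refine h5.trans ?_
    have h6 : ∑ a ∈ E J, sgn (σ a) * phi e ε w a i =
        ∑ a, sgn (σ a) * phi e ε w a i - ∑ a ∈ (E J)ᶜ, sgn (σ' a) * phi e ε w a i -
          ∑ a ∈ (E J)ᶜ, (sgn (σ a) - sgn (σ' a)) * phi e ε w a i := by
      rw [← Finset.sum_add_sum_compl (E J)]
      simp only [sub_mul, Finset.sum_sub_distrib]
      ring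
    rw [h6]
    have h7 : |∑ a ∈ (E J)ᶜ, (sgn (σ a) - sgn (σ' a)) * phi e ε w a i| ≤
        2 * ∑ a ∈ F, |phi e ε w a i| := by
      refine (Finset.abs_sum_le_sum_abs _ _).trans ?_
      rw [hF, Finset.mul_sum, Finset.sum_filter]
      refine Finset.sum_le_sum fun a _ => ?_
      rw [abs_mul, abs_sgn_sub]
      split_ifs
      · exact le_rfl
      · simp
    have h8 := hσ i
    have h9 := hσ' i
    calc _ ≤ |∑ a, sgn (σ a) * phi e ε w a i - ∑ a ∈ (E J)ᶜ, sgn (σ' a) * phi e ε w a i| +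
          |∑ a ∈ (E J)ᶜ, (sgn (σ a) - sgn (σ' a)) * phi e ε w a i| := abs_sub _ _
      _ ≤ (|∑ a, sgn (σ a) * phi e ε w a i| + |∑ a ∈ (E J)ᶜ, sgn (σ' a) * phi e ε w a i|) +
          |∑ a ∈ (E J)ᶜ, (sgn (σ a) - sgn (σ' a)) * phi e ε w a i| := by
          gcongr
          exact abs_sub _ _
      _ ≤ _ := by linarith
  have h5 : ∑ i ∈ Is J, (w / 2 * |hat i (lam J)| - L / 2) ≤ s * (2 * L) + 2 * (F.card * w) := by
    calc _ ≤ ∑ i ∈ Is J, (2 * L + 2 * ∑ a ∈ F, |phi e ε w a i|) := Finset.sum_le_sum h4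
      _ = s * (2 * L) + 2 * ∑ a ∈ F, ∑ i ∈ Is J, |phi e ε w a i| := by
        rw [Finset.sum_add_distrib, Finset.sum_const, nsmul_eq_mul, hs J, ← Finset.mul_sum,
          Finset.sum_comm]
      _ ≤ s * (2 * L) + 2 * ∑ _a ∈ F, w := by
        gcongr with a ha
        refine sum_abs_phi_le e ε w hw a (Is J) (T2 J a ?_)
        rw [hF, Finset.mem_filter, Finset.mem_compl] at ha
        exact ha.1
      _ = _ := by rw [Finset.sum_const, nsmul_eq_mul]
  have h6 := hJ.trans h5
  have h7 : s * (w * D / (4 * r) - L / 2) - s * (2 * L) ≤ 2 * w * F.card := by linarith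
  have h8 : s * (w * D / (4 * r) - L / 2) - s * (2 * L) =
      2 * w * (s * (D / (8 * r) - 5 / 4 * (L / w))) := by
    field_simp
    ring
  rw [h8] at h7
  exact le_of_mul_le_mul_left h7 (by positivity)

end

end Pool.Agent.DynNeg
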