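import Mathlib

/-!
# Linear algebra over the field with two elements: the tests
-/

set_option autoImplicit false

namespace Pool.Agent.DynNeg

open Finset

/-- The vector space `F_2^κ`. -/
abbrev Vt (κ : ℕ) : Type := Fin κ → ZMod 2

/-- The Walsh matrix. -/
noncomputable def Hm {κ : ℕ} (l b : Vt κ) : ℝ := if l ⬝ᵥ b = 0 then 1 else -1

theorem Hm_pm {κ : ℕ} (l b : Vt κ) : Hm l b = 1 ∨ Hm l b = -1 := by
  unfold Hm
  split_ifs
  · exact Or.inl rfl
  · exact Or.inr rfl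

theorem Hm_zero {κ : ℕ} (b : Vt κ) : Hm 0 b = 1 := by
  simp [Hm]

theorem Hm_eq_one {κ : ℕ} (l b : Vt κ) : Hm l b = 1 ↔ l ⬝ᵥ b = 0 := by
  unfold Hm
  split_ifs with h
  · simp [h]
  · simp only [h, iff_false]
    norm_num

theorem Hm_symm {κ : ℕ} (l b : Vt κ) : Hm l b = Hm b l := by
  unfold Hm
  rw [dotProduct_comm]

theorem aux_mul (x y : ZMod 2) : (if x = 0 then (1 : ℝ) else -1) * (if y = 0 then 1 else -1) =
    if x + y = 0 then 1 else -1 := by
  have h2 : ∀ z : ZMod 2, z = 0 ∨ z = 1 := by decide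
  have h3 : (1 : ZMod 2) ≠ 0 := by decide
  have h4 : (1 : ZMod 2) + 1 = 0 := by decide
  rcases h2 x with rfl | rfl <;> rcases h2 y with rfl | rfl <;> simp [h4]

theorem Hm_mul {κ : ℕ} (l l' b : Vt κ) : Hm l b * Hm l' b = Hm (l + l') b := by
  unfold Hm
  rw [aux_mul, add_dotProduct]

theorem exists_dual {κ : ℕ} (l : Vt κ) (hl : l ≠ 0) : ∃ v : Vt κ, l ⬝ᵥ v = 1 := by
  obtain ⟨i, hi⟩ := Function.ne_iff.1 hl
  have h2 : ∀ z : ZMod 2, z = 0 ∨ z = 1 := by decide
  have h3 : l i = 1 := (h2 (l i)).resolve_left (by simpa using hi)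
  refine ⟨Pi.single i 1, ?_⟩
  rw [dotProduct_single, h3, mul_one]

theorem sum_Hm {κ : ℕ} (l : Vt κ) (hl : l ≠ 0) : ∑ b, Hm l b = 0 := by
  obtain ⟨v, hv⟩ := exists_dual l hl
  have h1 : ∑ b, Hm l b = ∑ b, Hm l (b + v) := (Equiv.sum_comp (Equiv.addRight v) _).symm
  have h2 : ∀ b, Hm l (b + v) = -Hm l b := by
    intro b
    unfold Hm
    rw [dotProduct_add, hv]
    have h2 : ∀ z : ZMod 2, z = 0 ∨ z = 1 := by decide
    have h3 : (1 : ZMod 2) ≠ 0 := by decide
    have h4 : (1 : ZMod 2) + 1 = 0 := by decide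
    rcases h2 (l ⬝ᵥ b) with h | h <;> rw [h] <;> simp [h4]
  simp only [h2, Finset.sum_neg_distrib] at h1
  linarith

theorem add_eq_zero_two {κ : ℕ} (l l' : Vt κ) : l + l' = 0 ↔ l = l' := by
  have h2 : ∀ z w : ZMod 2, z + w = 0 ↔ z = w := by decide
  constructor
  · intro h
    funext i
    exact (h2 _ _).1 (congrFun h i)
  · rintro rfl
    funext i
    exact (h2 _ _).2 rfl

theorem Hm_row {κ : ℕ} (l l' : Vt κ) :
    ∑ b, Hm l b * Hm l' b = if l = l' then (Fintype.card (Vt κ) : ℝ) else 0 := by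
  simp only [Hm_mul]
  split_ifs with h
  · rw [(add_eq_zero_two l l').2 h]
    simp only [Hm_zero]
    rw [Finset.sum_const, Finset.card_univ, nsmul_eq_mul, mul_one]
  · exact sum_Hm _ fun h' => h ((add_eq_zero_two l l').1 h')

theorem Hm_col {κ : ℕ} (b b' : Vt κ) :
    ∑ l, Hm l b * Hm l b' = if b = b' then (Fintype.card (Vt κ) : ℝ) else 0 := by
  simp only [fun l : Vt κ => Hm_symm l b, fun l : Vt κ => Hm_symm l b']
  exact Hm_row b b'

/-- The solutions of one linear equation. -/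
def hyp {κ : ℕ} (l : Vt κ) (c : ZMod 2) : Finset (Vt κ) := univ.filter (fun b => l ⬝ᵥ b = c)

theorem mem_hyp {κ : ℕ} (l : Vt κ) (c : ZMod 2) (b : Vt κ) : b ∈ hyp l c ↔ l ⬝ᵥ b = c := by
  simp [hyp]

theorem card_hyp {κ : ℕ} (l : Vt κ) (hl : l ≠ 0) (c : ZMod 2) :
    (hyp l c).card = 2 ^ (κ - 1) := by
  obtain ⟨v, hv⟩ := exists_dual l hl
  have h2 : ∀ z : ZMod 2, z = 0 ∨ z = 1 := by decide
  have h3 : (1 : ZMod 2) ≠ 0 := by decide
  have h4 : (1 : ZMod 2) + 1 = 0 := by decide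
  have hmap : ∀ c d : ZMod 2, c + 1 = d → (hyp l c).card ≤ (hyp l d).card := by
    intro c d hcd
    refine Finset.card_le_card_of_injOn (fun b => b + v) ?_ ?_
    · intro b hb
      have hb' := (mem_hyp l c b).1 (Finset.mem_coe.1 hb)
      refine Finset.mem_coe.2 ((mem_hyp l d _).2 ?_)
      rw [dotProduct_add, hb', hv, hcd]
    · intro b _ b' _ h
      exact add_right_cancel h
  have h5 : (hyp l 0).card = (hyp l 1).card :=
    le_antisymm (hmap 0 1 (zero_add 1)) (hmap 1 0 h4)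
  have h6 : (hyp l 0).card + (hyp l 1).card = 2 ^ κ := by
    have h7 : (hyp l 1) = (univ : Finset (Vt κ)).filter (fun b => ¬ l ⬝ᵥ b = 0) := by
      ext b
      rw [mem_hyp]
      simp only [Finset.mem_filter, Finset.mem_univ, true_and]
      constructor
      · intro h
        rw [h]
        exact h3
      · intro h
        exact (h2 _).resolve_left h
    rw [h7, hyp, Finset.card_filter_add_card_filter_not, Finset.card_univ]
    simp
  have hκ : κ ≠ 0 := by
    rintro rfl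
    exact hl (Subsingleton.elim _ _)
  have h8 : 2 ^ κ = 2 ^ (κ - 1) * 2 := by
    rw [← pow_succ, Nat.sub_add_cancel (Nat.one_le_iff_ne_zero.2 hκ)]
  rcases h2 c with rfl | rfl
  · omega
  · omega

/-- The index set of the vectors. -/
abbrev At (κ h : ℕ) : Type := Vt κ × (Fin h → Vt κ)

/-- The index set of the coordinates. -/
abbrev It (κ h : ℕ) : Type := Vt h × (Fin h → Vt κ)

/-- The tests. -/
abbrev Test (κ h : ℕ) : Type := {l : Vt κ // l ≠ 0} × Vt h

/-- The incidence bijection. -/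
def inc (κ h : ℕ) : At κ h × Vt h ≃ It κ h × Vt κ where
  toFun p := ((p.2, fun j => p.1.2 j + p.2 j • p.1.1), p.1.1)
  invFun p := ((p.2, fun j => p.1.2 j - p.1.1 j • p.2), p.1.1)
  left_inv p := by
    ext <;> simp
  right_inv p := by
    ext <;> simp

/-- The vectors of a test. -/
def Eset {κ h : ℕ} (J : Test κ h) : Finset (At κ h) :=
  hyp J.1.1 0 ×ˢ Fintype.piFinset (fun j => hyp J.1.1 (J.2 j))

/-- The coordinates of a test. -/
def Iset {κ h : ℕ} (l : Vt κ) (c : Vt h) : Finset (It κ h) :=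
  univ ×ˢ Fintype.piFinset (fun j => hyp l (c j))

theorem mem_Eset {κ h : ℕ} (J : Test κ h) (a : At κ h) :
    a ∈ Eset J ↔ J.1.1 ⬝ᵥ a.1 = 0 ∧ ∀ j, J.1.1 ⬝ᵥ a.2 j = J.2 j := by
  simp [Eset, mem_hyp, Fintype.mem_piFinset]

theorem mem_Iset {κ h : ℕ} (l : Vt κ) (c : Vt h) (i : It κ h) :
    i ∈ Iset l c ↔ ∀ j, l ⬝ᵥ i.2 j = c j := by
  simp [Iset, mem_hyp, Fintype.mem_piFinset]

theorem card_Eset {κ h : ℕ} (J : Test κ h) : (Eset J).card = (2 ^ (κ - 1)) ^ (h + 1) := by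
  rw [Eset, Finset.card_product, Fintype.card_piFinset, card_hyp _ J.1.2]
  simp only [card_hyp _ J.1.2]
  rw [Finset.prod_const, Finset.card_univ, Fintype.card_fin, pow_succ, mul_comm]

theorem card_Iset {κ h : ℕ} (l : Vt κ) (hl : l ≠ 0) (c : Vt h) :
    (Iset l c).card = (2 ^ κ) ^ h := by
  have hκ : κ ≠ 0 := by
    rintro rfl
    exact hl (Subsingleton.elim _ _)
  obtain ⟨m, rfl⟩ := Nat.exists_eq_succ_of_ne_zero hκ
  rw [Iset, Finset.card_product, Fintype.card_piFinset]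
  simp only [card_hyp _ hl]
  rw [Finset.prod_const, Finset.card_univ, Finset.card_univ, Fintype.card_fin, Fintype.card_fun,
    ZMod.card, Fintype.card_fin, ← mul_pow, Nat.succ_eq_add_one, Nat.add_sub_cancel, pow_succ,
    mul_comm]

theorem test_T1 {κ h : ℕ} (J : Test κ h) (i : It κ h) (hi : i ∈ Iset J.1.1 J.2) (b : Vt κ) :
    ((inc κ h).symm (i, b)).1 ∈ Eset J ↔ Hm J.1.1 b = 1 := by
  rw [mem_Eset, Hm_eq_one]
  rw [mem_Iset] at hi
  simp only [inc, Equiv.coe_fn_symm_mk]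
  constructor
  · exact fun h => h.1
  · intro h
    refine ⟨h, fun j => ?_⟩
    rw [dotProduct_sub, dotProduct_smul, h, hi j, smul_zero, sub_zero]

theorem test_T2 {κ h : ℕ} (J : Test κ h) (a : At κ h) (ha : a ∉ Eset J) :
    (univ.filter (fun y => ((inc κ h) (a, y)).1 ∈ Iset J.1.1 J.2)).card ≤ 1 := by
  rw [Finset.card_le_one]
  intro y hy y' hy'
  rw [Finset.mem_filter, mem_Iset] at hy hy'
  replace hy := hy.2
  replace hy' := hy'.2
  simp only [inc, Equiv.coe_fn_mk] at hy hy'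
  funext j
  have h1 := hy j
  have h2 := hy' j
  rw [dotProduct_add, dotProduct_smul, smul_eq_mul] at h1 h2
  have h3 : (y j - y' j) * (J.1.1 ⬝ᵥ a.1) = 0 := by
    linear_combination h1 - h2
  rcases mul_eq_zero.1 h3 with h4 | h4
  · exact sub_eq_zero.1 h4
  · exfalso
    apply ha
    rw [mem_Eset]
    refine ⟨h4, fun j => ?_⟩
    have h5 := hy j
    rw [dotProduct_add, dotProduct_smul, h4, smul_zero, add_zero] at h5
    exact h5

theorem test_T3 {κ h : ℕ} (g : It κ h → Vt κ → ℝ) :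
    ∑ J : Test κ h, ∑ i ∈ Iset J.1.1 J.2, g i J.1.1 =
      ∑ i, ∑ l ∈ univ.erase (0 : Vt κ), g i l := by
  classical
  rw [Fintype.sum_prod_type, Finset.sum_comm (s := (univ : Finset (It κ h)))]
  have h1 : ∀ F : Vt κ → ℝ, ∑ l : {l : Vt κ // l ≠ 0}, F l.1 =
      ∑ l ∈ univ.erase (0 : Vt κ), F l := by
    intro F
    exact (Finset.sum_subtype (univ.erase (0 : Vt κ)) (fun x => by simp) F).symm
  rw [h1 (fun l => ∑ c : Vt h, ∑ i ∈ Iset l c, g i l)]
  refine Finset.sum_congr rfl fun l _ => ?_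
  have h2 : ∀ c : Vt h, ∑ i ∈ Iset l c, g i l =
      ∑ i : It κ h, if c = (fun j => l ⬝ᵥ i.2 j) then g i l else 0 := by
    intro c
    rw [← Finset.sum_filter]
    refine Finset.sum_congr ?_ fun _ _ => rfl
    ext i
    rw [mem_Iset, Finset.mem_filter]
    simp only [Finset.mem_univ, true_and]
    rw [funext_iff]
    exact forall_congr' fun j => eq_comm
  simp only [h2]
  rw [Finset.sum_comm]
  refine Finset.sum_congr rfl fun i _ => ?_
  rw [Finset.sum_ite_eq' univ (fun j => l ⬝ᵥ i.2 j) (fun _ => g i l)]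
  simp

end Pool.Agent.DynNeg
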