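import Mathlib

/-!
# A union bound over all signings
-/

set_option autoImplicit false

namespace Pool.Agent.DynNeg

open Finset

/-- the number of sign patterns all of whose blocks in `S` are bad -/
theorem block_count {X I V : Type} [Fintype X] [Fintype I] [Fintype V]
    [DecidableEq I] [DecidableEq V] [DecidableEq X]
    (Ψ : X → I → V → Bool) (hΨ : Function.Injective Ψ) (Bad : Finset (V → Bool)) (q : ℕ)
    (hBad : Bad.card * 2 ^ q ≤ 2 ^ (Fintype.card V)) (S : Finset I) :
    ((Finset.univ : Finset X).filter (fun x => ∀ i ∈ S, Ψ x i ∈ Bad)).card * 2 ^ (q * S.card) ≤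
      2 ^ (Fintype.card V * Fintype.card I) := by
  classical
  have h1 : ((Finset.univ : Finset X).filter (fun x => ∀ i ∈ S, Ψ x i ∈ Bad)).card ≤
      (Fintype.piFinset (fun i => if i ∈ S then Bad else (univ : Finset (V → Bool)))).card := by
    refine Finset.card_le_card_of_injOn Ψ ?_ hΨ.injOn
    intro x hx
    have hx' : ∀ i ∈ S, Ψ x i ∈ Bad := (Finset.mem_filter.1 (Finset.mem_coe.1 hx)).2
    refine Finset.mem_coe.2 (Fintype.mem_piFinset.2 fun i => ?_)
    by_cases hi : i ∈ S
    · simpa [hi] using hx' i hi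
    · simp [hi]
  have h2 : (Fintype.piFinset (fun i => if i ∈ S then Bad else
      (univ : Finset (V → Bool)))).card =
      Bad.card ^ S.card * (2 ^ Fintype.card V) ^ (Fintype.card I - S.card) := by
    rw [Fintype.card_piFinset]
    have h3 : ∀ i, (if i ∈ S then Bad else (univ : Finset (V → Bool))).card =
        if i ∈ S then Bad.card else 2 ^ Fintype.card V := by
      intro i
      by_cases hi : i ∈ S
      · simp [hi]
      · simp [hi]
    simp_rw [h3]
    rw [Finset.prod_ite]
    simp only [Finset.prod_const]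
    congr 2
    · congr 1
      ext i
      simp
    · have : (univ.filter (fun i : I => i ∉ S)) = Sᶜ := by
        ext i
        simp
      rw [this, Finset.card_compl]
  have hS : S.card ≤ Fintype.card I := Finset.card_le_univ S
  calc ((Finset.univ : Finset X).filter (fun x => ∀ i ∈ S, Ψ x i ∈ Bad)).card * 2 ^ (q * S.card)
      ≤ (Bad.card ^ S.card * (2 ^ Fintype.card V) ^ (Fintype.card I - S.card)) *
          2 ^ (q * S.card) := by
        exact Nat.mul_le_mul_right _ (h1.trans h2.le)
    _ = (Bad.card * 2 ^ q) ^ S.card * (2 ^ Fintype.card V) ^ (Fintype.card I - S.card) := by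
        rw [mul_pow, pow_mul]
        ring
    _ ≤ (2 ^ Fintype.card V) ^ S.card * (2 ^ Fintype.card V) ^ (Fintype.card I - S.card) := by
        exact Nat.mul_le_mul_right _ (Nat.pow_le_pow_left hBad _)
    _ = 2 ^ (Fintype.card V * Fintype.card I) := by
        rw [← pow_add, Nat.add_sub_cancel' hS, ← pow_mul]

/-- U: the union bound. -/
theorem union_exists {A Y I V : Type} [Fintype A] [Fintype Y] [Fintype I] [Fintype V]
    [DecidableEq A] [DecidableEq Y] [DecidableEq I] [DecidableEq V]
    (e : A × Y ≃ I × V) (Bad : Finset (V → Bool)) (q : ℕ)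
    (hBad : Bad.card * 2 ^ q ≤ 2 ^ (Fintype.card V))
    (hq : 2 * (Fintype.card A + Fintype.card I) < q * Fintype.card I) :
    ∃ ε : A × Y → Bool, ∀ σ : A → Bool,
      2 * ((Finset.univ : Finset I).filter (fun i =>
        (fun b => xor (σ (e.symm (i, b)).1) (ε (e.symm (i, b)))) ∈ Bad)).card <
        Fintype.card I := by
  classical
  by_contra hcon
  push Not at hcon
  choose σ hσ using hcon
  let Ψ : (A → Bool) → (A × Y → Bool) → I → V → Bool := fun τ ε i b =>
    xor (τ (e.symm (i, b)).1) (ε (e.symm (i, b)))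
  have hΨ : ∀ τ, Function.Injective (Ψ τ) := by
    intro τ ε ε' h
    funext x
    have h1 := congrFun (congrFun h (e x).1) (e x).2
    simp only [Ψ, Prod.mk.eta, Equiv.symm_apply_apply] at h1
    revert h1
    cases τ x.1 <;> simp
  let P : Finset ((A → Bool) × Finset I) :=
    univ.filter (fun p => Fintype.card I ≤ 2 * p.2.card)
  let F : (A × Y → Bool) → (A → Bool) × Finset I := fun ε =>
    (σ ε, univ.filter (fun i => Ψ (σ ε) ε i ∈ Bad))
  have hF : ∀ ε ∈ (univ : Finset (A × Y → Bool)), F ε ∈ P := by
    intro ε _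
    refine Finset.mem_filter.2 ⟨Finset.mem_univ _, ?_⟩
    exact hσ ε
  have h1 : Fintype.card (A × Y → Bool) =
      ∑ p ∈ P, ((univ : Finset (A × Y → Bool)).filter (fun ε => F ε = p)).card := by
    rw [← Finset.card_univ]
    exact Finset.card_eq_sum_card_fiberwise hF
  have h2 : ∀ p ∈ P, ((univ : Finset (A × Y → Bool)).filter (fun ε => F ε = p)).card *
      2 ^ (Fintype.card A + Fintype.card I + 1) ≤
      2 ^ (Fintype.card V * Fintype.card I) := by
    intro p hp
    have hp' : Fintype.card I ≤ 2 * p.2.card := (Finset.mem_filter.1 hp).2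
    have h3 : ((univ : Finset (A × Y → Bool)).filter (fun ε => F ε = p)).card ≤
        ((univ : Finset (A × Y → Bool)).filter (fun ε => ∀ i ∈ p.2, Ψ p.1 ε i ∈ Bad)).card := by
      refine Finset.card_le_card ?_
      intro ε hε
      have h4 : F ε = p := (Finset.mem_filter.1 hε).2
      refine Finset.mem_filter.2 ⟨Finset.mem_univ _, ?_⟩
      intro i hi
      rw [← h4] at hi ⊢
      exact (Finset.mem_filter.1 hi).2
    have h5 := block_count (Ψ p.1) (hΨ p.1) Bad q hBad p.2
    have h6 : Fintype.card A + Fintype.card I + 1 ≤ q * p.2.card := by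
      nlinarith
    calc _ ≤ ((univ : Finset (A × Y → Bool)).filter
          (fun ε => ∀ i ∈ p.2, Ψ p.1 ε i ∈ Bad)).card * 2 ^ (q * p.2.card) :=
          Nat.mul_le_mul h3 (Nat.pow_le_pow_right (by norm_num) h6)
      _ ≤ _ := h5
  have h3 : P.card ≤ 2 ^ (Fintype.card A + Fintype.card I) := by
    calc P.card ≤ Fintype.card ((A → Bool) × Finset I) := Finset.card_le_univ _
      _ = 2 ^ (Fintype.card A + Fintype.card I) := by
        rw [Fintype.card_prod, Fintype.card_finset, Fintype.card_fun, Fintype.card_bool, pow_add]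
  have h4 : Fintype.card (A × Y → Bool) = 2 ^ (Fintype.card V * Fintype.card I) := by
    rw [Fintype.card_fun, Fintype.card_bool, Fintype.card_congr e, Fintype.card_prod, mul_comm]
  have h5 : 2 ^ (Fintype.card V * Fintype.card I) *
      2 ^ (Fintype.card A + Fintype.card I + 1) ≤
      2 ^ (Fintype.card A + Fintype.card I) * 2 ^ (Fintype.card V * Fintype.card I) := by
    calc _ = ∑ p ∈ P, ((univ : Finset (A × Y → Bool)).filter (fun ε => F ε = p)).card *
          2 ^ (Fintype.card A + Fintype.card I + 1) := by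
          rw [← h4, h1, Finset.sum_mul]
      _ ≤ ∑ p ∈ P, 2 ^ (Fintype.card V * Fintype.card I) := Finset.sum_le_sum h2
      _ = P.card * 2 ^ (Fintype.card V * Fintype.card I) := by
          rw [Finset.sum_const, smul_eq_mul]
      _ ≤ _ := Nat.mul_le_mul_right _ h3
  have h6 : 0 < 2 ^ (Fintype.card V * Fintype.card I) := by positivity
  have h7 : 0 < 2 ^ (Fintype.card A + Fintype.card I) := by positivity
  rw [pow_succ] at h5
  nlinarith

end Pool.Agent.DynNeg
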