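import Mathlib
import Pool.Agent.DynNeg.S
import Pool.Agent.DynNeg.T
import Pool.Agent.DynNeg.U
import Pool.Agent.DynNeg.WNum
import Pool.Agent.DynNeg.G

/-!
# Assembly of the lower bound
-/

set_option autoImplicit false

namespace Pool.Agent.DynNeg

open Finset Pool.Agent.DynBal

theorem sum_sq_phi {A Y I V : Type} [Fintype Y] [Fintype I] [DecidableEq I]
    (e : A × Y ≃ I × V) (ε : A × Y → Bool) (w : ℝ) (a : A)
    (hinj : Function.Injective (fun y => (e (a, y)).1)) :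
    ∑ i, (phi e ε w a i) ^ 2 = Fintype.card Y * w ^ 2 := by
  classical
  calc ∑ i, (phi e ε w a i) ^ 2 =
      ∑ i, ∑ y, ∑ y', (if (e (a, y)).1 = i then w * sgn (ε (a, y)) else 0) *
        (if (e (a, y')).1 = i then w * sgn (ε (a, y')) else 0) := by
        refine Finset.sum_congr rfl fun i _ => ?_
        rw [phi, sq, Finset.sum_mul_sum]
    _ = ∑ y, ∑ y', ∑ i, (if (e (a, y)).1 = i then w * sgn (ε (a, y)) else 0) *
        (if (e (a, y')).1 = i then w * sgn (ε (a, y')) else 0) := by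
        rw [Finset.sum_comm]
        refine Finset.sum_congr rfl fun y _ => ?_
        rw [Finset.sum_comm]
    _ = ∑ y : Y, ∑ y' : Y, (if y = y' then w ^ 2 else 0) := by
        refine Finset.sum_congr rfl fun y _ => Finset.sum_congr rfl fun y' _ => ?_
        rw [Finset.sum_eq_single (e (a, y)).1]
        · rw [if_pos rfl]
          by_cases h : y = y'
          · subst h
            rw [if_pos rfl, if_pos rfl]
            have := sgn_sq (ε (a, y))
            linear_combination w ^ 2 * this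
          · rw [if_neg h, if_neg (fun h' => h (hinj h').symm), mul_zero]
        · intro i _ hi
          rw [if_neg (Ne.symm hi), zero_mul]
        · intro h
          exact absurd (Finset.mem_univ _) h
    _ = _ := by
        simp

theorem inc_inj (κ h : ℕ) (a : At κ h) : Function.Injective (fun y => ((inc κ h) (a, y)).1) := by
  intro y y' hyy
  simp only [inc, Equiv.coe_fn_mk, Prod.mk.injEq] at hyy
  exact hyy.1

theorem card_Vt (κ : ℕ) : Fintype.card (Vt κ) = 2 ^ κ := by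
  simp

theorem card_At (κ h : ℕ) : Fintype.card (At κ h) = (2 ^ κ) ^ (h + 1) := by
  simp [pow_succ, mul_comm]

theorem card_It (κ h : ℕ) : Fintype.card (It κ h) = 2 ^ h * (2 ^ κ) ^ h := by
  simp

theorem card_Test_le (κ h : ℕ) : Fintype.card (Test κ h) ≤ 2 ^ κ * 2 ^ h := by
  rw [Fintype.card_prod, card_Vt]
  refine Nat.mul_le_mul_right _ ?_
  rw [← card_Vt κ]
  exact Fintype.card_subtype_le _

/-- The lower bound for one value of the parameter. -/
theorem lower (ℓ : ℕ) (hℓ : 3 ≤ ℓ) : ∃ n T : ℕ, 0 < n ∧ 0 < T ∧ T ≤ n ^ 3 ∧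
    n * T ≤ 2 ^ (100 * ℓ ^ 2) ∧ ∃ adv : Adversary n, ∀ alg : Algorithm n,
      (∀ q, LegalL2 (history alg adv q)) ∧
      ((∃ q ≤ T, ∃ i, 2 ^ ℓ / (64 * Bl ℓ) <
        |signedSum (history alg adv q) (alg (history alg adv q)) i|) ∨
      T * (2 ^ ℓ / (48 * Bl ℓ)) ≤ ∑ q ∈ Finset.range T,
        (recourse (history alg adv q) (history alg adv (q + 1))
          (alg (history alg adv q)) (alg (history alg adv (q + 1))) : ℝ)) := by
  classical
  set κ := 6 * ℓ with hκ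
  set h := 4 * ℓ with hh
  have hBl := Bl_pos ℓ
  have h2κ : 2 ^ κ = 64 ^ ℓ := by
    rw [hκ, pow_mul]
    norm_num
  have h2h : 2 ^ h = 16 ^ ℓ := by
    rw [hh, pow_mul]
    norm_num
  have hcV : Fintype.card (Vt κ) = 64 ^ ℓ := by rw [card_Vt, h2κ]
  have hcVr : (Fintype.card (Vt κ) : ℝ) = 64 ^ ℓ := by
    rw [hcV]
    push_cast
    rfl
  -- the bad sign vectors
  set Bad : Finset (Vt κ → Bool) := Finset.univ.filter (fun s =>
      ∑ l, |∑ b, Hm l b * sgn (s b)| < 512 ^ ℓ / (2 * Bl ℓ)) with hBad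
  have hBadc : Bad.card * 2 ^ (2 * 4 ^ ℓ + 3) ≤ 2 ^ (Fintype.card (Vt κ)) :=
    walsh_num Hm Hm_row Hm_col ℓ hℓ hcV
  have hNn : Fintype.card (At κ h) = 4 ^ ℓ * Fintype.card (It κ h) := by
    rw [card_At, card_It, h2κ, h2h, pow_succ, ← mul_assoc, ← mul_pow]
    norm_num
    ring
  have hIpos : 0 < Fintype.card (It κ h) := Fintype.card_pos
  obtain ⟨ε, hε⟩ := union_exists (inc κ h) Bad (2 * 4 ^ ℓ + 3) hBadc (by
    rw [hNn]
    nlinarith)
  -- the weight
  set w : ℝ := 1 / √(2 * 16 ^ ℓ) with hw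
  have hw0 : 0 < w := by positivity
  have hw2 : w ^ 2 = 1 / (2 * 16 ^ ℓ) := by
    rw [hw, div_pow, Real.sq_sqrt (by positivity), one_pow]
  have h16 : √(2 * 16 ^ ℓ : ℝ) = √2 * 4 ^ ℓ := by
    rw [Real.sqrt_mul (by norm_num), show (16 ^ ℓ : ℝ) = (4 ^ ℓ) ^ 2 by
      rw [← pow_mul, mul_comm, pow_mul]; norm_num]
    rw [Real.sqrt_sq (by positivity)]
  have hs2 : √2 < 1.6 := by
    rw [Real.sqrt_lt' (by norm_num)]
    norm_num
  have hs2' : 0 < √2 := by positivity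
  set L : ℝ := 2 ^ ℓ / (64 * Bl ℓ) with hL
  set D : ℝ := 512 ^ ℓ / (2 * Bl ℓ) with hD
  set t : ℕ := (2 ^ (κ - 1)) ^ (h + 1) with ht
  set s : ℕ := (2 ^ κ) ^ h with hs
  have ht0 : 0 < t := by positivity
  have hstat := fun σ hσ => static_abs (inc κ h) Hm Hm_pm 0 Hm_zero (fun J : Test κ h => Eset J)
    (fun J : Test κ h => Iset J.1.1 J.2) (fun J : Test κ h => J.1.1) s
    (fun J => card_Iset J.1.1 J.1.2 J.2) (by
      rw [card_Vt, card_It]
      calc Fintype.card (Test κ h) * s ≤ (2 ^ κ * 2 ^ h) * s :=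
            Nat.mul_le_mul_right _ (card_Test_le κ h)
        _ = _ := by ring) test_T1 test_T2 test_T3 D ε (by
      intro σ
      have h1 := hε σ
      rw [hBad] at h1
      simpa only [Finset.mem_filter, Finset.mem_univ, true_and] using h1) w L hw0 (by
      rw [hcVr, hL, hD, hw, h16]
      rw [show (512 : ℝ) ^ ℓ = 64 ^ ℓ * (2 ^ ℓ * 4 ^ ℓ) by
        rw [← mul_pow, ← mul_pow]; norm_num]
      have h1 : 1 / (√2 * 4 ^ ℓ) * (64 ^ ℓ * (2 ^ ℓ * 4 ^ ℓ) / (2 * Bl ℓ)) =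
          (64 ^ ℓ * 2 ^ ℓ / Bl ℓ) * (1 / (2 * √2)) := by
        field_simp
      have h2 : 2 * (64 : ℝ) ^ ℓ * (2 ^ ℓ / (64 * Bl ℓ)) = (64 ^ ℓ * 2 ^ ℓ / Bl ℓ) * (1 / 32) := by
        field_simp
        norm_num
      rw [h1, h2]
      refine mul_le_mul_of_nonneg_left ?_ (by positivity)
      exact one_div_le_one_div_of_le (by positivity) (by linarith)) (by positivity) σ hσ
  -- the recourse forced by one phase
  set Φ : ℝ := t * (2 ^ ℓ / (16 * Bl ℓ)) with hΦ
  have hts : (t : ℝ) * (2 * 2 ^ ℓ) = s * 8 ^ ℓ := by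
    have h1 : t * (2 * 2 ^ ℓ) = s * 8 ^ ℓ := by
      rw [ht, hs, ← pow_mul, ← pow_mul, show 8 ^ ℓ = 2 ^ (3 * ℓ) by rw [pow_mul]; norm_num,
        ← pow_succ', ← pow_add, ← pow_add]
      congr 1
      obtain ⟨p, hp⟩ : ∃ p, κ = p + 1 := ⟨κ - 1, by omega⟩
      rw [hp, Nat.add_sub_cancel]
      have hp' : p + 1 = 6 * ℓ := by rw [← hp]
      rw [hh]
      zify at hp' ⊢
      linear_combination hp'
    exact_mod_cast h1
  have hΦle : Φ ≤ s * (D / (8 * Fintype.card (Vt κ)) - 5 / 4 * (L / w)) := by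
    rw [hcVr]
    have h1 : D / (8 * 64 ^ ℓ) = 8 ^ ℓ / (16 * Bl ℓ) := by
      rw [hD, show (512 : ℝ) ^ ℓ = 64 ^ ℓ * 8 ^ ℓ by rw [← mul_pow]; norm_num]
      field_simp
      norm_num
    have h2 : L / w = 8 ^ ℓ / Bl ℓ * (√2 / 64) := by
      rw [hL, hw, h16, show (8 : ℝ) ^ ℓ = 2 ^ ℓ * 4 ^ ℓ by rw [← mul_pow]; norm_num]
      field_simp
    have h3 : Φ = s * (8 ^ ℓ / (32 * Bl ℓ)) := by
      have : Φ = (t * (2 * 2 ^ ℓ)) * (1 / (32 * Bl ℓ)) := by
        rw [hΦ]
        field_simp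
        norm_num
      rw [this, hts]
      ring
    rw [h1, h2, h3]
    refine mul_le_mul_of_nonneg_left ?_ (by positivity)
    have h4 : (8 : ℝ) ^ ℓ / (32 * Bl ℓ) = 8 ^ ℓ / Bl ℓ * (1 / 32) := by
      field_simp
    have h5 : (8 : ℝ) ^ ℓ / (16 * Bl ℓ) = 8 ^ ℓ / Bl ℓ * (1 / 16) := by
      field_simp
    rw [h4, h5]
    have h6 : 0 < (8 : ℝ) ^ ℓ / Bl ℓ := by positivity
    nlinarith
  have hne : Nonempty (Test κ h) := by
    refine ⟨(⟨fun _ => 1, fun hc => ?_⟩, 0)⟩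
    have hκ0 : 0 < κ := by omega
    have := congrFun hc ⟨0, hκ0⟩
    exact one_ne_zero (α := ZMod 2) this
  let eq := Fintype.equivFin (It κ h)
  obtain ⟨adv, hadv⟩ := game (A := At κ h) (ι := Test κ h) (n := Fintype.card (It κ h))
    (fun a i => phi (inc κ h) ε w a (eq.symm i)) (by
      intro a
      rw [Equiv.sum_comp eq.symm (fun i => (phi (inc κ h) ε w a i) ^ 2),
        sum_sq_phi _ ε w a (inc_inj κ h a), hw2, card_Vt, h2h]
      push_cast
      have : (0 : ℝ) < 16 ^ ℓ := by positivity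
      field_simp
      exact le_rfl) (fun J => Eset J) t ht0 (fun J => card_Eset J) L Φ (by
      intro σ hσ
      obtain ⟨J, hJ⟩ := hstat σ (fun i => by
        have := hσ (eq i)
        simpa only [Equiv.symm_apply_apply] using this)
      refine ⟨J, fun σ' hσ' => hΦle.trans (hJ σ' (fun i => ?_))⟩
      have := hσ' (eq i)
      simpa only [Equiv.symm_apply_apply] using this)
  set N := Fintype.card (At κ h) with hN
  have hN0 : 0 < N := Fintype.card_pos
  have h1 : Fintype.card (It κ h) + 1 ≤ 2 ^ (1 + h + κ * h) := by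
    have : 2 ^ (1 + h + κ * h) = 2 * Fintype.card (It κ h) := by
      rw [card_It, pow_add, pow_add, pow_mul]
      ring
    omega
  have h2 : t ≤ 2 ^ (κ * (h + 1)) := by
    rw [ht, ← pow_mul]
    exact Nat.pow_le_pow_right (by norm_num) (Nat.mul_le_mul_right _ (Nat.sub_le _ _))
  have h3 : N = 2 ^ (κ * (h + 1)) := by
    rw [hN, card_At, ← pow_mul]
  have h4 : N + 2 * t * N ≤ 2 ^ (2 + κ * (h + 1) + κ * (h + 1)) := by
    calc N + 2 * t * N ≤ 4 * t * N := by nlinarith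
      _ ≤ 4 * 2 ^ (κ * (h + 1)) * 2 ^ (κ * (h + 1)) := by
        rw [h3]
        gcongr
      _ = _ := by
        rw [pow_add, pow_add]
        norm_num
  refine ⟨Fintype.card (It κ h) + 1, N + 2 * t * N, by omega, by positivity, ?_, ?_, adv,
    fun alg => ⟨(hadv alg).1, ?_⟩⟩
  · calc N + 2 * t * N ≤ 2 ^ (2 + κ * (h + 1) + κ * (h + 1)) := h4
      _ ≤ 2 ^ ((h + κ * h) * 3) := by
        refine Nat.pow_le_pow_right (by norm_num) ?_
        rw [hκ, hh]
        nlinarith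
      _ = (Fintype.card (It κ h)) ^ 3 := by
        rw [card_It, ← pow_mul 2 κ h, ← pow_add, ← pow_mul]
      _ ≤ _ := Nat.pow_le_pow_left (Nat.le_succ _) 3
  · calc (Fintype.card (It κ h) + 1) * (N + 2 * t * N) ≤
          2 ^ (1 + h + κ * h) * 2 ^ (2 + κ * (h + 1) + κ * (h + 1)) := Nat.mul_le_mul h1 h4
      _ = 2 ^ ((1 + h + κ * h) + (2 + κ * (h + 1) + κ * (h + 1))) := by rw [← pow_add]
      _ ≤ 2 ^ (100 * ℓ ^ 2) := by
        refine Nat.pow_le_pow_right (by norm_num) ?_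
        rw [hκ, hh]
        nlinarith
  · rcases (hadv alg).2 N with h1 | h1
    · exact Or.inl h1
    · refine Or.inr (le_trans ?_ h1)
      have h2 : (1 : ℝ) ≤ t := by exact_mod_cast ht0
      have h3 : (0 : ℝ) < N := by exact_mod_cast hN0
      have h4 : (0 : ℝ) < 2 ^ ℓ / Bl ℓ := by positivity
      have h5 : (2 : ℝ) ^ ℓ / (48 * Bl ℓ) = 2 ^ ℓ / Bl ℓ * (1 / 48) := by field_simp
      have h6 : Φ = t * (2 ^ ℓ / Bl ℓ * (1 / 16)) := by
        rw [hΦ]
        field_simp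
      rw [h5, h6]
      push_cast
      have h7 : (N : ℝ) + 2 * t * N ≤ 3 * t * N := by nlinarith
      calc ((N : ℝ) + 2 * t * N) * (2 ^ ℓ / Bl ℓ * (1 / 48)) ≤
            (3 * t * N) * (2 ^ ℓ / Bl ℓ * (1 / 48)) := by gcongr
        _ = _ := by ring

end Pool.Agent.DynNeg
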